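import Pool.Agent.MP_855f4c_ag.Gr.Geo

/-! The even part of cohomology and the relation of a projective bundle. -/

namespace Pool.Agent.MP_855f4c_ag.Gr

open Polynomial Module

section

variable {F : Type} [Field F] {A B : Type} [AddCommGroup A] [Module F A] [AddCommGroup B]
  [Module F B]

theorem proj_map (𝒜 : ℕ → Submodule F A) (ℬ : ℕ → Submodule F B) [DirectSum.Decomposition 𝒜]
    [DirectSum.Decomposition ℬ] (L : A →ₗ[F] B) (m : ℕ) (hL : ∀ j, ∀ a ∈ 𝒜 j, L a ∈ ℬ (j + m))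
    (a : A) (j : ℕ) :
    (DirectSum.decompose ℬ (L a) (j + m) : B) = L (DirectSum.decompose 𝒜 a j : A) := by
  induction a using DirectSum.Decomposition.inductionOn 𝒜 with
  | zero => simp
  | add a b ha hb => simp [DirectSum.decompose_add, ha, hb]
  | @homogeneous i a =>
    by_cases h : i = j
    · subst h
      rw [DirectSum.decompose_of_mem_same ℬ (hL i a a.2), DirectSum.decompose_of_mem_same 𝒜 a.2]
    · rw [DirectSum.decompose_of_mem_ne ℬ (hL i a a.2) (by omega),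
        DirectSum.decompose_of_mem_ne 𝒜 a.2 h, map_zero]

theorem exists_lift_map {C D : Type} [AddCommGroup C] [Module F C] [AddCommGroup D] [Module F D]
    (ν : B →ₗ[F] C) (r : B →ₗ[F] D) (L : A →ₗ[F] C) (hex : ∀ a, ∃ w, ν w = L a ∧ r w = 0)
    (hun : ∀ w, ν w = 0 → r w = 0 → w = 0) :
    ∃ ι : A →ₗ[F] B, ∀ a, ν (ι a) = L a ∧ r (ι a) = 0 := by
  choose g h1 h2 using hex
  refine ⟨⟨⟨g, fun a b => ?_⟩, fun s a => ?_⟩, fun a => ⟨h1 a, h2 a⟩⟩
  · exact sub_eq_zero.1 (hun _ (by simp [h1]) (by simp [h2]))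
  · exact sub_eq_zero.1 (hun _ (by simp [h1]) (by simp [h2]))

end

/-- A cohomology theory: data with all the required properties. -/
structure Coh (K : Type) [NontriviallyNormedField K] (F : Type) [Field F] (n : ℕ) where
  A : ∀ {ι : Type} [Finite ι], Var K n ι → AlgCat.{0} F
  gr : ∀ {ι : Type} [Finite ι] (X : Var K n ι), ℕ → Submodule F (A X)
  pull : ∀ {ι κ : Type} [Finite ι] [Finite κ] {X : Var K n ι} {Y : Var K n κ} (α : κ → ι),
    Maps X Y α → (A Y →ₐ[F] A X)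
  χ : (AlgebraicClosure K ≃ₐ[K] AlgebraicClosure K) →* Fˣ
  ρ : ∀ {ι : Type} [Finite ι] (X : Var K n ι),
    (AlgebraicClosure K ≃ₐ[K] AlgebraicClosure K) →* (A X ≃ₐ[F] A X)
  x : ∀ {ι : Type} [Finite ι] (X : Var K n ι), ι → A X
  hgr : Graded gr ρ x χ
  hnat : Natural gr pull ρ x
  hbundle : Bundle pull x
  hblowup : Blowup pull
  hduality : Duality gr
  htrace : Trace ρ x
  htube : Tube gr ρ x

variable {K : Type} [NontriviallyNormedField K] {F : Type} [Field F] {n : ℕ} (H : Coh K F n)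
  {ι κ μ : Type} [Finite ι] [Finite κ] [Finite μ]

namespace Coh

theorem fin (X : Var K n ι) : Module.Finite F (H.A X) := (H.hgr ι X).1

theorem internal (X : Var K n ι) : DirectSum.IsInternal (H.gr X) := (H.hgr ι X).2.1

theorem graded (X : Var K n ι) : SetLike.GradedMonoid (H.gr X) := (H.hgr ι X).2.2.1

theorem comm (X : Var K n ι) (j : ℕ) : ∀ a ∈ H.gr X (2 * j), ∀ b, a * b = b * a :=
  (H.hgr ι X).2.2.2.1 j

theorem ρ_gr (X : Var K n ι) σ (j : ℕ) : ∀ a ∈ H.gr X j, H.ρ X σ a ∈ H.gr X j :=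
  (H.hgr ι X).2.2.2.2.1 σ j

theorem x_gr (X : Var K n ι) (i : ι) : H.x X i ∈ H.gr X 2 := ((H.hgr ι X).2.2.2.2.2 i).1

theorem ρ_x (X : Var K n ι) σ (i : ι) : H.ρ X σ (H.x X i) = H.χ σ • H.x X i :=
  ((H.hgr ι X).2.2.2.2.2 i).2 σ

theorem pull_gr {X : Var K n ι} {Y : Var K n κ} (α : κ → ι) (h : Maps X Y α) (j : ℕ) :
    ∀ a ∈ H.gr Y j, H.pull α h a ∈ H.gr X j := (H.hnat ι κ X Y α h).1 j

theorem ρ_pull {X : Var K n ι} {Y : Var K n κ} (α : κ → ι) (h : Maps X Y α) σ (a : H.A Y) :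
    H.ρ X σ (H.pull α h a) = H.pull α h (H.ρ Y σ a) := (H.hnat ι κ X Y α h).2.1 σ a

theorem pull_x {X : Var K n ι} {Y : Var K n κ} (α : κ → ι) (h : Maps X Y α) (i : κ) :
    H.pull α h (H.x Y i) = H.x X (α i) := (H.hnat ι κ X Y α h).2.2.1 i

theorem pull_id {X : Var K n ι} (h : Maps X X id) (a : H.A X) : H.pull id h a = a :=
  (H.hnat ι ι X X id h).2.2.2.1 h a

theorem pull_comp {X : Var K n ι} {Y : Var K n κ} {Z : Var K n μ} (α : κ → ι) (β : μ → κ)
    (h : Maps X Y α) (h' : Maps Y Z β) (h'' : Maps X Z (α ∘ β)) (a : H.A Z) :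
    H.pull α h (H.pull β h' a) = H.pull (α ∘ β) h'' a :=
  (H.hnat ι κ X Y α h).2.2.2.2 μ Z β h' h'' a

theorem bundle (X : Var K n ι) (P : Var K n (Option ι)) (i : ι) (h : Maps P X some)
    (hP : P.pts = {z | z ∘ some ∈ X.pts ∧ Module.finrank (AlgebraicClosure K) (z none) = 1 ∧
      z none ≤ z (some i)}) : Function.Bijective fun a : Fin (X.k i) → H.A X =>
        ∑ j, H.pull some h (a j) * H.x P none ^ (j : ℕ) :=
  H.hbundle ι X P i h hP

theorem pull_comp' {X : Var K n ι} {Y : Var K n κ} {Z : Var K n μ} (α : κ → ι) (β : μ → κ)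
    (γ : μ → ι) (e : α ∘ β = γ) (h : Maps X Y α) (h' : Maps Y Z β) (h'' : Maps X Z γ)
    (a : H.A Z) : H.pull α h (H.pull β h' a) = H.pull γ h'' a := by
  subst e
  exact H.pull_comp α β h h' h'' a

theorem mul_gr {X : Var K n ι} {i j : ℕ} {a b : H.A X} (ha : a ∈ H.gr X i) (hb : b ∈ H.gr X j) :
    a * b ∈ H.gr X (i + j) :=
  (H.graded X).mul_mem ha hb

theorem pow_gr {X : Var K n ι} {i : ℕ} {a : H.A X} (ha : a ∈ H.gr X i) (m : ℕ) :
    a ^ m ∈ H.gr X (i * m) := by
  induction m with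
  | zero => simpa using (H.graded X).one_mem
  | succ m ih => rw [pow_succ, Nat.mul_succ]; exact H.mul_gr ih ha

/-- The subalgebra generated by classes of even degree. -/
def Ev (X : Var K n ι) : Subalgebra F (H.A X) := Algebra.adjoin F {a | ∃ j, a ∈ H.gr X (2 * j)}

theorem Ev_comm {X : Var K n ι} (a : H.Ev X) (b : H.A X) : (a : H.A X) * b = b * a := by
  have : H.Ev X ≤ Subalgebra.center F (H.A X) := Algebra.adjoin_le (by
    rintro a ⟨j, hj⟩
    exact Subalgebra.mem_center_iff.2 fun b => (H.comm X j a hj b).symm)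
  exact (Subalgebra.mem_center_iff.1 (this a.2) b).symm

noncomputable instance instCommRingEv (X : Var K n ι) : CommRing (H.Ev X) :=
  { (inferInstance : Ring (H.Ev X)) with
    mul_comm := fun a b => Subtype.ext (H.Ev_comm a b) }

theorem mem_Ev {X : Var K n ι} {j : ℕ} {a : H.A X} (h : a ∈ H.gr X (2 * j)) : a ∈ H.Ev X :=
  Algebra.subset_adjoin ⟨j, h⟩

/-- Pull-back on even parts. -/
noncomputable def evp {X : Var K n ι} {Y : Var K n κ} (α : κ → ι) (h : Maps X Y α) :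
    H.Ev Y →+* H.Ev X :=
  ((H.pull α h).toRingHom.comp (H.Ev Y).val.toRingHom).codRestrict (H.Ev X) fun a =>
    (show H.Ev Y ≤ (H.Ev X).comap (H.pull α h) from Algebra.adjoin_le (by
      rintro a ⟨j, hj⟩
      exact H.mem_Ev (H.pull_gr α h _ a hj))) a.2

theorem coe_evp {X : Var K n ι} {Y : Var K n κ} (α : κ → ι) (h : Maps X Y α) (a : H.Ev Y) :
    (H.evp α h a : H.A X) = H.pull α h a := rfl

/-- The tautological classes in the even part. -/
def xe (X : Var K n ι) (i : ι) : H.Ev X := ⟨H.x X i, H.mem_Ev (j := 1) (H.x_gr X i)⟩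

theorem coe_xe (X : Var K n ι) (i : ι) : (H.xe X i : H.A X) = H.x X i := rfl

theorem evp_xe {X : Var K n ι} {Y : Var K n κ} (α : κ → ι) (h : Maps X Y α) (i : κ) :
    H.evp α h (H.xe Y i) = H.xe X (α i) :=
  Subtype.ext (H.pull_x α h i)

theorem evp_comp {X : Var K n ι} {Y : Var K n κ} {Z : Var K n μ} (α : κ → ι) (β : μ → κ)
    (γ : μ → ι) (e : α ∘ β = γ) (h : Maps X Y α) (h' : Maps Y Z β) (h'' : Maps X Z γ) :
    (H.evp α h).comp (H.evp β h') = H.evp γ h'' :=
  RingHom.ext fun a => Subtype.ext (H.pull_comp' α β γ e h h' h'' a)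

theorem evp_id {X : Var K n ι} (h : Maps X X id) : H.evp id h = RingHom.id _ :=
  RingHom.ext fun a => Subtype.ext (H.pull_id h a)

/-- `P` is monic of degree `r` and kills the class of every line contained in the `i`-th
subspace. -/
def IsRel (X : Var K n ι) (i : ι) (r : ℕ) (P : (H.Ev X)[X]) : Prop :=
  P.coeff r = 1 ∧ (∀ m > r, P.coeff m = 0) ∧
    ∀ (κ : Type) [Finite κ] (Q : Var K n κ) (α : ι → κ) (h : Maps Q X α) (t : κ),
      (∀ z ∈ Q.pts, finrank (AlgebraicClosure K) (z t) = 1 ∧ z t ≤ z (α i)) →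
        P.eval₂ (H.evp α h) (H.xe Q t) = 0

theorem maps_comp {X : Var K n ι} {Y : Var K n κ} {Z : Var K n μ} {α : κ → ι} {β : μ → κ}
    (h : Maps X Y α) (h' : Maps Y Z β) : Maps X Z (α ∘ β) :=
  fun z hz => h' _ (h z hz)

theorem IsRel.map {X : Var K n ι} {Y : Var K n κ} {α : κ → ι} (h : Maps X Y α) {i : κ} {r : ℕ}
    {P : (H.Ev Y)[X]} (hP : H.IsRel Y i r P) : H.IsRel X (α i) r (P.map (H.evp α h)) := by
  refine ⟨by rw [coeff_map, hP.1, map_one], fun m hm => by rw [coeff_map, hP.2.1 m hm, map_zero],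
    fun μ _ Q β h' t ht => ?_⟩
  rw [eval₂_map, H.evp_comp β α (β ∘ α) rfl h' h (maps_comp h' h)]
  exact hP.2.2 μ Q _ _ t ht

theorem eval₂_sum {R S : Type} [CommRing R] [CommRing S] (f : R →+* S) (y : S) (P : R[X]) (r : ℕ)
    (h : ∀ m ≥ r, P.coeff m = 0) : P.eval₂ f y = ∑ j : Fin r, f (P.coeff j) * y ^ (j : ℕ) := by
  by_cases hP : P = 0
  · simp [hP]
  · rw [eval₂_eq_sum_range' f (n := r), Finset.sum_range]
    rw [natDegree_lt_iff_degree_lt hP, degree_lt_iff_coeff_zero]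
    exact h

theorem eq_zero_of_eval₂ (X : Var K n ι) (i : ι) (R : (H.Ev X)[X])
    (h : ∀ m ≥ X.k i, R.coeff m = 0)
    (h0 : R.eval₂ (H.evp some (PB_maps X i)) (H.xe (PB X i) none) = 0) : R = 0 := by
  rw [eval₂_sum _ _ _ _ h] at h0
  have h1 := (H.bundle X (PB X i) i (PB_maps X i) (PB_pts X i)).1
    (a₁ := fun j => (R.coeff j : H.A X)) (a₂ := 0) (by
      have := congrArg Subtype.val h0
      simpa [coe_evp, coe_xe] using this)
  ext m
  rcases lt_or_ge m (X.k i) with hm | hm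
  · simpa using congrFun h1 ⟨m, hm⟩
  · simp [h m hm]

theorem IsRel.unique {X : Var K n ι} {i : ι} {r : ℕ} (hr : X.k i = r) {P P' : (H.Ev X)[X]}
    (hP : H.IsRel X i r P) (hP' : H.IsRel X i r P') : P = P' := by
  refine sub_eq_zero.1 (H.eq_zero_of_eval₂ X i _ (fun m hm => ?_) ?_)
  · rw [coeff_sub]
    rcases (hr ▸ hm).eq_or_lt with h | h
    · rw [← h, hP.1, hP'.1, sub_self]
    · rw [hP.2.1 m h, hP'.2.1 m h, sub_self]
  · rw [eval₂_sub, hP.2.2 _ _ _ _ _ fun z hz => (mem_PB.1 hz).2,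
      hP'.2.2 _ _ _ _ _ fun z hz => (mem_PB.1 hz).2, sub_self]

theorem exists_isRel (X : Var K n ι) (i : ι) {r : ℕ} (hr : X.k i = r) :
    ∃ P, H.IsRel X i r P ∧ ∀ m ≤ r, (P.coeff m : H.A X) ∈ H.gr X (2 * (r - m)) ∧
      ∀ σ, H.ρ X σ (P.coeff m) = H.χ σ ^ (r - m) • (P.coeff m : H.A X) := by
  subst hr
  have hb := H.bundle X (PB X i) i (PB_maps X i) (PB_pts X i)
  obtain ⟨a, ha⟩ := hb.2 (-H.x (PB X i) none ^ X.k i)
  simp only at ha
  have hgr : ∀ j : Fin (X.k i), a j ∈ H.gr X (2 * (X.k i - j)) := by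
    letI := (H.internal X).chooseDecomposition
    letI := (H.internal (PB X i)).chooseDecomposition
    have h1 : (fun j : Fin (X.k i) =>
        (DirectSum.decompose (H.gr X) (a j) (2 * (X.k i - j)) : H.A X)) = a := by
      apply hb.1
      simp only
      have h2 : -H.x (PB X i) none ^ X.k i ∈ H.gr (PB X i) (2 * X.k i) :=
        neg_mem (H.pow_gr (H.x_gr _ _) _)
      rw [ha, ← DirectSum.decompose_of_mem_same _ h2, ← ha, DirectSum.decompose_sum,
        DFinsupp.finset_sum_apply, AddSubmonoidClass.coe_finset_sum]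
      refine Finset.sum_congr rfl fun j _ => ?_
      have := proj_map (H.gr X) (H.gr (PB X i))
        (LinearMap.mulRight F (H.x (PB X i) none ^ (j : ℕ)) ∘ₗ
          (H.pull some (PB_maps X i)).toLinearMap) (2 * j)
        (fun m b hb => H.mul_gr (H.pull_gr _ _ _ b hb) (H.pow_gr (H.x_gr _ _) _)) (a j)
        (2 * (X.k i - j))
      rw [show 2 * (X.k i - j) + 2 * j = 2 * X.k i by have := j.2; omega] at this
      exact this.symm
    intro j
    rw [← congrFun h1 j]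
    exact Subtype.property _
  have hρ : ∀ σ (j : Fin (X.k i)), H.ρ X σ (a j) = H.χ σ ^ (X.k i - j) • a j := by
    intro σ
    have h1 : (fun j : Fin (X.k i) => H.χ σ ^ (j : ℕ) • H.ρ X σ (a j)) =
        fun j => H.χ σ ^ X.k i • a j := by
      apply hb.1
      have h2 := congrArg (H.ρ (PB X i) σ) ha
      simp only [map_sum, map_mul, map_pow, map_neg, H.ρ_pull, H.ρ_x, _root_.smul_pow] at h2
      simp only [Units.smul_def, map_smul, smul_mul_assoc]
      rw [← Finset.smul_sum, ha, smul_neg, ← Units.smul_def, ← h2]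
      refine Finset.sum_congr rfl fun j _ => ?_
      rw [Units.smul_def, mul_smul_comm]
    intro j
    have h2 := congrFun h1 j
    have h3 : H.χ σ ^ X.k i = H.χ σ ^ (j : ℕ) * H.χ σ ^ (X.k i - j) := by
      rw [← pow_add]
      congr 1
      have := j.2
      omega
    rwa [h3, mul_smul, smul_left_cancel_iff] at h2
  let P : (H.Ev X)[X] :=
    Polynomial.X ^ X.k i + ∑ j : Fin (X.k i), monomial j ⟨a j, H.mem_Ev (hgr j)⟩
  have hc : ∀ m, P.coeff m = if h : m < X.k i then ⟨a ⟨m, h⟩, H.mem_Ev (hgr _)⟩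
      else if m = X.k i then 1 else 0 := by
    intro m
    simp only [P, coeff_add, coeff_X_pow, finset_sum_coeff, coeff_monomial]
    by_cases h : m < X.k i
    · rw [dif_pos h, if_neg h.ne, zero_add, Finset.sum_eq_single ⟨m, h⟩, if_pos rfl]
      · intro b _ hb
        exact if_neg fun e => hb (Fin.ext e)
      · simp
    · rw [dif_neg h, Finset.sum_eq_zero, add_zero]
      intro b _
      exact if_neg (by have := b.2; omega)
  refine ⟨P, ⟨by simp [hc], fun m hm => by rw [hc, dif_neg (by omega), if_neg (by omega)],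
    fun κ _ Q α h t ht => ?_⟩, fun m hm => ?_⟩
  · have hQ : Maps Q (PB X i) (fun o => o.elim t α) := fun z hz =>
      mem_PB.2 ⟨h z hz, (ht z hz).1, (ht z hz).2⟩
    have h0 : P.eval₂ (H.evp some (PB_maps X i)) (H.xe (PB X i) none) = 0 := by
      apply Subtype.ext
      simp only [P, eval₂_add, eval₂_X_pow, eval₂_finset_sum, eval₂_monomial]
      simp only [Subalgebra.coe_add, SubmonoidClass.coe_pow, AddSubmonoidClass.coe_finset_sum,
        MulMemClass.coe_mul, coe_evp, coe_xe, ha]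
      simp
    have h1 := congrArg (H.evp _ hQ) h0
    rwa [hom_eval₂, map_zero, H.evp_comp _ some α rfl hQ (PB_maps X i) h, evp_xe] at h1
  · rw [hc]
    rcases hm.eq_or_lt with h | h
    · rw [dif_neg (by omega), if_pos h, h, Nat.sub_self]
      exact ⟨(H.graded X).one_mem, fun σ => by simp⟩
    · rw [dif_pos h]
      exact ⟨hgr ⟨m, h⟩, fun σ => hρ σ ⟨m, h⟩⟩

end Coh

end Pool.Agent.MP_855f4c_ag.Gr
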