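import Pool.Agent.MP_855f4c_ag.Gr.Defs

/-! Smooth complete intersections are dense: a Bertini theorem proved with a derivation of the
generic point. -/

namespace Pool.Agent.MP_855f4c_ag.Gr

open MvPolynomial

theorem exists_deriv {K J L : Type} [Field K] [CharZero K] [DecidableEq J] [Field L] [Algebra K L]
    [Algebra (MvPolynomial J K) L] [IsScalarTower K (MvPolynomial J K) L]
    [FaithfulSMul (MvPolynomial J K) L] [Algebra.EssFiniteType (MvPolynomial J K) L] (j0 : J) :
    ∃ δ : L →+ L, (∀ x y, δ (x * y) = x * δ y + y * δ x) ∧ (∀ a : K, δ (algebraMap K L a) = 0) ∧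
      ∀ j, δ (algebraMap (MvPolynomial J K) L (X j)) = if j = j0 then 1 else 0 := by
  let E := FractionRing (MvPolynomial J K)
  letI : Algebra E L := FractionRing.liftAlgebra _ _
  have : IsScalarTower (MvPolynomial J K) E L := FractionRing.isScalarTower_liftAlgebra _ _
  have : Algebra.EssFiniteType E L := Algebra.EssFiniteType.of_comp (MvPolynomial J K) E L
  have : Algebra.FormallySmooth E L := Algebra.FormallySmooth.of_perfectField
  have : Algebra.FormallySmooth (MvPolynomial J K) E :=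
    Algebra.FormallySmooth.of_isLocalization (nonZeroDivisors _)
  have hsm : Algebra.FormallySmooth (MvPolynomial J K) L :=
    Algebra.FormallySmooth.comp (MvPolynomial J K) E L
  let ψ0 : MvPolynomial J K →ₐ[K] DualNumber L := aeval fun j =>
    TrivSqZeroExt.inl (algebraMap (MvPolynomial J K) L (X j)) +
      TrivSqZeroExt.inr (if j = j0 then 1 else 0)
  have h0 : ∀ r, (ψ0 r).fst = algebraMap (MvPolynomial J K) L r := by
    intro r
    have : (TrivSqZeroExt.fstHom K L L).comp ψ0 = IsScalarTower.toAlgHom K (MvPolynomial J K) L :=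
      algHom_ext fun j => by by_cases h : j = j0 <;> simp [ψ0, h]
    exact DFunLike.congr_fun this r
  letI : Algebra (MvPolynomial J K) (DualNumber L) := ψ0.toRingHom.toAlgebra
  let π : DualNumber L →ₐ[MvPolynomial J K] L :=
    { (TrivSqZeroExt.fstHom K L L).toRingHom with commutes' := h0 }
  have hπ : Function.Surjective π := fun x => ⟨TrivSqZeroExt.inl x, rfl⟩
  have hn : IsNilpotent (RingHom.ker (π : DualNumber L →+* L)) := by
    refine ⟨2, ?_⟩
    rw [Submodule.pow_succ, Submodule.pow_one, Ideal.zero_eq_bot, eq_bot_iff, Ideal.mul_le]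
    intro a ha b hb
    have ha' : a.fst = 0 := ha
    have hb' : b.fst = 0 := hb
    rw [Ideal.mem_bot]
    ext <;> simp [ha', hb']
  let ψ := Algebra.FormallySmooth.liftOfSurjective (AlgHom.id _ L) π hπ hn
  have h1 : ∀ x, (ψ x).fst = x := fun x =>
    Algebra.FormallySmooth.liftOfSurjective_apply (AlgHom.id _ L) π hπ hn x
  have h2 : ∀ r, ψ (algebraMap (MvPolynomial J K) L r) = ψ0 r := fun r => ψ.commutes r
  refine ⟨⟨⟨fun x => (ψ x).snd, by simp⟩, fun x y => by simp⟩, fun x y => ?_, fun a => ?_,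
    fun j => ?_⟩
  · simp [h1, mul_comm]
  · change (ψ _).snd = 0
    rw [IsScalarTower.algebraMap_apply K (MvPolynomial J K) L, h2, AlgHom.commutes]
    simp [TrivSqZeroExt.algebraMap_eq_inl']
  · change (ψ _).snd = _
    rw [h2]
    by_cases h : j = j0 <;> simp [ψ0, h]

theorem deriv_aeval {K V L : Type} [Field K] [Fintype V] [DecidableEq V] [CommRing L] [Algebra K L]
    (δ : L →+ L) (h1 : ∀ x y, δ (x * y) = x * δ y + y * δ x) (h2 : ∀ a : K, δ (algebraMap K L a) = 0)
    (M : V → L) (p : MvPolynomial V K) :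
    δ (aeval M p) = ∑ w, aeval M (pderiv w p) * δ (M w) := by
  induction p using MvPolynomial.induction_on with
  | C a => simp [h2]
  | add p q hp hq => simp [hp, hq, add_mul, Finset.sum_add_distrib]
  | mul_X p v hp =>
    simp only [map_mul, aeval_X, h1, hp, Derivation.leibniz, smul_eq_mul, map_add, add_mul,
      Finset.sum_add_distrib, pderiv_X, Finset.mul_sum, mul_assoc]
    congr 1
    rw [Finset.sum_eq_single v]
    · simp
    · intro w _ hw
      simp [Pi.single_eq_of_ne' hw]
    · simp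

variable {K : Type} [Field K] {n k c : ℕ}

/-- The monomial of multidegree `e` in the coordinates chosen by `τ`. -/
noncomputable def mono (K : Type) [Field K] (τ : Fin k → Fin n) (e : Fin k → ℕ) :
    MvPolynomial (Fin k × Fin n) K :=
  monomial (∑ l, Finsupp.single (l, τ l) (e l)) 1

theorem mono_eq (τ : Fin k → Fin n) (e : Fin k → ℕ) :
    mono K τ e = ∏ l, X (l, τ l) ^ e l := by
  simp only [mono, X_pow_eq_monomial]
  rw [← monomial_sum_one]

/-- The perturbed system. -/
noncomputable def pert (f : Fin c → MvPolynomial (Fin k × Fin n) K) (e : Fin c → Fin k → ℕ)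
    (α : Fin c × (Fin k → Fin n) → K) (i : Fin c) : MvPolynomial (Fin k × Fin n) K :=
  f i + ∑ τ, C (α (i, τ)) * mono K τ (e i)

theorem no_generic_sing {L : Type} [Field L] [Algebra K L]
    (f : Fin c → MvPolynomial (Fin k × Fin n) K) (e : Fin c → Fin k → ℕ) (τ0 : Fin k → Fin n)
    (i0 : Fin c) (δ : L →+ L) (d1 : ∀ x y, δ (x * y) = x * δ y + y * δ x)
    (d2 : ∀ a : K, δ (algebraMap K L a) = 0) (a : Fin c × (Fin k → Fin n) → L)
    (d3 : ∀ j, δ (a j) = if j = (i0, τ0) then 1 else 0) (M : Fin k × Fin n → L) (l : Fin c → L)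
    (h1 : ∀ i, aeval M (f i) + ∑ τ, a (i, τ) * aeval M (mono K τ (e i)) = 0)
    (h2 : ∀ w, ∑ i, l i * (aeval M (pderiv w (f i)) +
      ∑ τ, a (i, τ) * aeval M (pderiv w (mono K τ (e i)))) = 0)
    (h3 : l i0 ≠ 0) (h4 : ∀ j, M (j, τ0 j) ≠ 0) : False := by
  have h5 : ∀ i, (∑ w, (aeval M (pderiv w (f i)) +
      ∑ τ, a (i, τ) * aeval M (pderiv w (mono K τ (e i)))) * δ (M w)) +
        (if i = i0 then aeval M (mono K τ0 (e i)) else 0) = 0 := by
    intro i
    have h := congrArg δ (h1 i)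
    rw [map_zero, map_add, map_sum] at h
    refine Eq.trans ?_ h
    simp only [d1, deriv_aeval δ d1 d2, d3, Finset.sum_add_distrib, add_mul, Finset.sum_mul,
      Finset.mul_sum, Prod.mk.injEq, mul_ite, mul_one, mul_zero, add_assoc, mul_assoc]
    congr 2
    · exact Finset.sum_comm
    · by_cases hi : i = i0 <;> simp [hi]
  have h6 : ∑ i, l i * ((∑ w, (aeval M (pderiv w (f i)) +
      ∑ τ, a (i, τ) * aeval M (pderiv w (mono K τ (e i)))) * δ (M w)) +
        (if i = i0 then aeval M (mono K τ0 (e i)) else 0)) = 0 := by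
    simp only [h5, mul_zero, Finset.sum_const_zero]
  have h7 : ∑ i, l i * ∑ w, (aeval M (pderiv w (f i)) +
      ∑ τ, a (i, τ) * aeval M (pderiv w (mono K τ (e i)))) * δ (M w) = 0 := by
    simp only [Finset.mul_sum _ _ (l _), ← mul_assoc]
    rw [Finset.sum_comm]
    refine Finset.sum_eq_zero fun w _ => ?_
    rw [← Finset.sum_mul, h2, zero_mul]
  simp only [mul_add, Finset.sum_add_distrib, h7, zero_add, mul_ite, mul_zero, Finset.sum_ite_eq',
    Finset.mem_univ, if_true] at h6
  rw [mono_eq] at h6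
  simp only [map_prod, map_pow, aeval_X] at h6
  exact mul_ne_zero h3 (Finset.prod_ne_zero_iff.2 fun j _ => pow_ne_zero _ (h4 j)) h6

theorem generic_chart [CharZero K] (f : Fin c → MvPolynomial (Fin k × Fin n) K)
    (e : Fin c → Fin k → ℕ) (τ0 : Fin k → Fin n) (i0 : Fin c) :
    ∃ Δ : MvPolynomial (Fin c × (Fin k → Fin n)) K, Δ ≠ 0 ∧
      ∀ (α : Fin c × (Fin k → Fin n) → K) (M : Fin k × Fin n → AlgebraicClosure K)
        (l : Fin c → AlgebraicClosure K), (∀ i, aeval M (pert f e α i) = 0) →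
        (∀ w, ∑ i, l i * aeval M (pderiv w (pert f e α i)) = 0) → l i0 ≠ 0 →
        (∀ j, M (j, τ0 j) ≠ 0) → eval α Δ = 0 := by
  classical
  let R := MvPolynomial (Fin c × (Fin k → Fin n)) K
  let B := MvPolynomial ((Fin k × Fin n) ⊕ Fin c ⊕ Unit) R
  let m : Fin k × Fin n → B := fun v => X (Sum.inl v)
  let val : Fin c → B := fun i =>
    aeval m (f i) + ∑ τ, C (X (i, τ)) * aeval m (mono K τ (e i))
  let grad : Fin k × Fin n → B := fun w => ∑ i, X (Sum.inr (Sum.inl i)) *
    (aeval m (pderiv w (f i)) + ∑ τ, C (X (i, τ)) * aeval m (pderiv w (mono K τ (e i))))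
  let u : B := X (Sum.inr (Sum.inr ())) * (X (Sum.inr (Sum.inl i0)) * ∏ j, m (j, τ0 j)) - 1
  let I : Ideal B := Ideal.span (Set.range val ∪ Set.range grad ∪ {u})
  have hval : ∀ {S : Type} [CommRing S] [Algebra K S] (φ : B →ₐ[K] S) (i : Fin c), φ (val i) =
      aeval (φ ∘ m) (f i) + ∑ τ, φ (C (X (i, τ))) * aeval (φ ∘ m) (mono K τ (e i)) := by
    intro S _ _ φ i
    simp only [val, map_add, map_sum, map_mul, comp_aeval_apply]
    rfl
  have hgrad : ∀ {S : Type} [CommRing S] [Algebra K S] (φ : B →ₐ[K] S) w, φ (grad w) =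
      ∑ i, φ (X (Sum.inr (Sum.inl i))) * (aeval (φ ∘ m) (pderiv w (f i)) +
        ∑ τ, φ (C (X (i, τ))) * aeval (φ ∘ m) (pderiv w (mono K τ (e i)))) := by
    intro S _ _ φ w
    simp only [grad, map_add, map_sum, map_mul, comp_aeval_apply]
    rfl
  by_cases hI : ∃ Δ : R, Δ ≠ 0 ∧ (C Δ : B) ∈ I
  · obtain ⟨Δ, h0, hΔ⟩ := hI
    refine ⟨Δ, h0, fun α M l h1 h2 h3 h4 => ?_⟩
    let φ : B →ₐ[K] AlgebraicClosure K :=
      aevalTower (aeval fun j => algebraMap K (AlgebraicClosure K) (α j))
        (Sum.elim M (Sum.elim l fun _ => (l i0 * ∏ j, M (j, τ0 j))⁻¹))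
    have hX : ∀ v, φ (X v) = Sum.elim M (Sum.elim l fun _ => (l i0 * ∏ j, M (j, τ0 j))⁻¹) v :=
      fun v => aevalTower_X _ _ _
    have hm : φ ∘ m = M := funext fun v => hX _
    have hC : ∀ r : R, φ (C r) = algebraMap K (AlgebraicClosure K) (eval α r) := fun r =>
      (aevalTower_C _ _ _).trans (comp_aeval_apply α (Algebra.ofId K (AlgebraicClosure K)) r).symm
    have hle : I ≤ RingHom.ker φ := by
      refine Ideal.span_le.2 ?_
      rintro _ ((⟨i, rfl⟩ | ⟨w, rfl⟩) | rfl)
      · change φ _ = 0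
        rw [hval, hm, ← h1 i]
        simp [pert, hC]
      · change φ _ = 0
        rw [hgrad, hm, ← h2 w]
        simp [pert, hC, hX, R]
      · change φ _ = 0
        have : l i0 * ∏ j, M (j, τ0 j) ≠ 0 := mul_ne_zero h3 (Finset.prod_ne_zero_iff.2 fun j _ => h4 j)
        simp only [u, m, map_sub, map_mul, map_prod, hX, Sum.elim_inr, Sum.elim_inl, map_one]
        rw [inv_mul_cancel₀ this, sub_self]
    have : φ (C Δ) = 0 := hle hΔ
    rwa [hC, map_eq_zero] at this
  · exfalso
    obtain ⟨p, hp, hIp, hdisj⟩ := I.exists_le_prime_disjoint ((nonZeroDivisors R).map (C : R →+* B))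
      (Set.disjoint_left.2 (by
        rintro _ hb ⟨r, hr, rfl⟩
        exact hI ⟨r, nonZeroDivisors.ne_zero hr, hb⟩))
    let L := FractionRing (B ⧸ p)
    have hinj : Function.Injective (algebraMap R L) := by
      rw [injective_iff_map_eq_zero]
      intro r hr
      by_contra h
      rw [IsScalarTower.algebraMap_apply R (B ⧸ p) L] at hr
      have hr' := (injective_iff_map_eq_zero _).1 (IsFractionRing.injective (B ⧸ p) L) _ hr
      exact Set.disjoint_left.1 hdisj (Ideal.Quotient.eq_zero_iff_mem.1 hr')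
        ⟨r, mem_nonZeroDivisors_of_ne_zero h, rfl⟩
    have : FaithfulSMul R L := (faithfulSMul_iff_algebraMap_injective R L).2 hinj
    have : Algebra.EssFiniteType (B ⧸ p) L :=
      Algebra.EssFiniteType.of_isLocalization L (nonZeroDivisors _)
    have : Algebra.EssFiniteType R L := Algebra.EssFiniteType.comp R (B ⧸ p) L
    obtain ⟨δ, d1, d2, d3⟩ := exists_deriv (K := K) (L := L) (i0, τ0)
    let φ : B →ₐ[K] L := (IsScalarTower.toAlgHom K (B ⧸ p) L).comp (Ideal.Quotient.mkₐ K p)
    have hφ : ∀ b ∈ I, φ b = 0 := fun b hb => by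
      simp only [φ, AlgHom.comp_apply, Ideal.Quotient.mkₐ_eq_mk,
        Ideal.Quotient.eq_zero_iff_mem.2 (hIp hb), map_zero]
    have h3 : φ u = 0 := hφ _ (Ideal.subset_span (Or.inr rfl))
    simp only [u, map_sub, map_mul, map_prod, map_one, sub_eq_zero] at h3
    have h7 := right_ne_zero_of_mul_eq_one h3
    exact no_generic_sing f e τ0 i0 δ d1 d2 (fun j => φ (C (X j))) d3 (φ ∘ m)
      (fun i => φ (X (Sum.inr (Sum.inl i))))
      (fun i => (hval φ i).symm.trans (hφ _ (Ideal.subset_span (Or.inl (Or.inl ⟨i, rfl⟩)))))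
      (fun w => (hgrad φ w).symm.trans (hφ _ (Ideal.subset_span (Or.inl (Or.inr ⟨w, rfl⟩)))))
      (left_ne_zero_of_mul h7)
      fun j => Finset.prod_ne_zero_iff.1 (right_ne_zero_of_mul h7) j (Finset.mem_univ _)

theorem mono_hom (τ : Fin k → Fin n) (e : Fin k → ℕ) :
    IsWeightedHomogeneous (fun v : Fin k × Fin n => (Pi.single v.1 1 : Fin k → ℕ))
      (mono K τ e) e := by
  refine isWeightedHomogeneous_monomial _ _ _ ?_
  rw [map_sum]
  funext l
  simp [Finsupp.weight_apply, Finset.sum_apply, Pi.single_apply]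

theorem pert_hom {f : Fin c → MvPolynomial (Fin k × Fin n) K} {e : Fin c → Fin k → ℕ} (hf : MH f e)
    (α : Fin c × (Fin k → Fin n) → K) : MH (pert f e α) e := fun i =>
  (hf i).add (IsWeightedHomogeneous.sum _ _ _ fun τ _ => by
    simpa using (isWeightedHomogeneous_C _ (α (i, τ))).mul (mono_hom τ (e i)))

theorem exists_smooth_near {K : Type} [NontriviallyNormedField K] [CharZero K]
    (f : Fin c → MvPolynomial (Fin k × Fin n) K) (e : Fin c → Fin k → ℕ) (hf : MH f e) {ε : ℝ}
    (hε : 0 < ε) : ∃ g, MH g e ∧ CI g ∧ ∀ i m, ‖coeff m (g i - f i)‖ < ε := by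
  classical
  choose Δ h0 hΔ using generic_chart f e
  have hN : (0 : ℝ) < Fintype.card (Fin k → Fin n) + 1 := by positivity
  have hp : ∏ j : Fin c × (Fin k → Fin n), Δ j.2 j.1 ≠ 0 :=
    Finset.prod_ne_zero_iff.2 fun j _ => h0 _ _
  obtain ⟨α, hα, hne⟩ : ∃ α ∈ Set.pi Set.univ fun _ : Fin c × (Fin k → Fin n) =>
      Metric.ball (0 : K) (ε / (Fintype.card (Fin k → Fin n) + 1)),
        eval α (∏ j : Fin c × (Fin k → Fin n), Δ j.2 j.1) ≠ 0 := by
    by_contra h
    push Not at h
    exact hp (funext_set _ (fun _ => infinite_of_mem_nhds 0 (Metric.ball_mem_nhds _ (div_pos hε hN)))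
      fun x hx => (h x hx).trans (map_zero _).symm)
  refine ⟨pert f e α, pert_hom hf α, fun M hM hM0 => ?_, fun i m => ?_⟩
  · refine Fintype.linearIndependent_iff.2 fun l hl i0 => ?_
    by_contra hi
    choose τ hτ using fun j => Function.ne_iff.1 (hM0 j)
    rw [map_prod] at hne
    refine Finset.prod_ne_zero_iff.1 hne (i0, τ) (Finset.mem_univ _)
      (hΔ τ i0 α (fun v => M v.1 v.2) l hM (fun w => ?_) hi hτ)
    simpa using congrFun hl w
  · simp only [pert, add_sub_cancel_left, coeff_sum, coeff_C_mul]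
    refine (norm_sum_le_of_le (n := fun _ => ε / (Fintype.card (Fin k → Fin n) + 1)) _
      fun τ _ => ?_).trans_lt ?_
    · have h1 : ‖α (i, τ)‖ < ε / (Fintype.card (Fin k → Fin n) + 1) := by
        simpa using hα (i, τ) trivial
      rw [mono, coeff_monomial]
      split_ifs
      · simpa using h1.le
      · simpa using (norm_nonneg _).trans h1.le
    · rw [Finset.sum_const, Finset.card_univ, nsmul_eq_mul, mul_div_assoc', div_lt_iff₀ hN]
      linarith

end Pool.Agent.MP_855f4c_ag.Gr
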