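import Mathlib

/-! Closed subvarieties of products of Grassmannians, cohomology theories on them, and
monodromy-weight purity. -/

namespace Pool.Agent.MP_855f4c_ag.Gr

open MvPolynomial

/-- A closed subvariety over `K` of a product of Grassmannians `Gr(k i, n)`: dimensions and
equations. -/
structure Var (K : Type) [Field K] (n : ℕ) (ι : Type) where
  k : ι → ℕ
  S : Set (MvPolynomial ((ι × ℕ) × Fin n) K)

section

variable {K : Type} [Field K] {n k c s : ℕ} {ι κ : Type}

/-- Geometric points: tuples of subspaces of the given dimensions such that the equations vanish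
on all choices of vectors from them. -/
def Var.pts (X : Var K n ι) :
    Set (ι → Submodule (AlgebraicClosure K) (Fin n → AlgebraicClosure K)) :=
  {z | (∀ i, Module.finrank (AlgebraicClosure K) (z i) = X.k i) ∧
    ∀ M : ι × ℕ → Fin n → AlgebraicClosure K, (∀ p, M p ∈ z p.1) →
      ∀ f ∈ X.S, aeval (fun v => M v.1 v.2) f = 0}

/-- The index map `α` defines a morphism `X → Y`. -/
def Maps (X : Var K n ι) (Y : Var K n κ) (α : κ → ι) : Prop :=
  ∀ z ∈ X.pts, z ∘ α ∈ Y.pts

/-- The zero set of polynomials in `k` vectors, the `l`-th vector being taken from the subspace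
number `β l`, whose dimension is the number of vectors taken from it. -/
def zer (β : Fin k → Fin s) (f : Fin c → MvPolynomial (Fin k × Fin n) K) : Var K n (Fin s) :=
  ⟨fun j => (Finset.univ.filter fun l => β l = j).card,
    Set.range fun i => rename (fun v => ((β v.1, (v.1 : ℕ)), v.2)) (f i)⟩

/-- `f i` is homogeneous of degree `e i l` in the `l`-th vector. -/
def MH (f : Fin c → MvPolynomial (Fin k × Fin n) K) (e : Fin c → Fin k → ℕ) : Prop :=
  ∀ i, IsWeightedHomogeneous (fun v : Fin k × Fin n => (Pi.single v.1 1 : Fin k → ℕ)) (f i) (e i)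

/-- `M` is a common zero of the `f i`. -/
def Zero (f : Fin c → MvPolynomial (Fin k × Fin n) K) (M : Fin k → Fin n → AlgebraicClosure K) :
    Prop :=
  ∀ i, aeval (fun v => M v.1 v.2) (f i) = 0

/-- The vectors of each block are linearly independent. -/
def Ind (β : Fin k → Fin s) (M : Fin k → Fin n → AlgebraicClosure K) : Prop :=
  ∀ j, LinearIndepOn (AlgebraicClosure K) M {l | β l = j}

/-- The zero set of `f` is stable under linear combinations of vectors inside each block, and its
part with independent blocks is, with its reduced structure, smooth of codimension `c`. -/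
def Sm (β : Fin k → Fin s) (f : Fin c → MvPolynomial (Fin k × Fin n) K) : Prop :=
  ∀ M, Zero f M →
    (∀ M', (∀ l, M' l ∈ Submodule.span (AlgebraicClosure K) (M '' {l' | β l' = β l})) →
      Zero f M') ∧
    (Ind β M → ∃ g : Fin c → MvPolynomial (Fin k × Fin n) (AlgebraicClosure K),
      (∀ M', Zero f M' → Ind β M' → ∀ i, eval (fun v => M' v.1 v.2) (g i) = 0) ∧
        LinearIndependent (AlgebraicClosure K)
          fun i (w : Fin k × Fin n) => eval (fun v => M v.1 v.2) (pderiv w (g i)))

/-- The gradients of the `g i` are independent at all zeros with nonzero vectors: `zer id g` is a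
smooth complete intersection in a product of projective spaces. -/
def CI (g : Fin c → MvPolynomial (Fin k × Fin n) K) : Prop :=
  ∀ M, Zero g M → (∀ l, M l ≠ 0) → LinearIndependent (AlgebraicClosure K)
    fun i (w : Fin k × Fin n) => aeval (fun v => M v.1 v.2) (pderiv w (g i))

/-- The degree of the class `Q` on a complete intersection of multidegrees `e` in the `k`-fold
product of projective spaces of dimension `n - 1`. -/
noncomputable def bez (n : ℕ) (e : Fin c → Fin k → ℕ) (Q : MvPolynomial (Fin k) ℤ) : ℤ :=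
  coeff (Finsupp.equivFunOnFinite.symm fun _ => n - 1) (Q * ∏ i, ∑ l, (e i l : ℤ) • X l)

end

/-- Monodromy-weight purity of weight `i` of `V` for the operators `φ` (Frobenius) and `u`
(an element of inertia): for some `m > 0` the monodromy filtration `M` of `N = u ^ m - 1` on `V`
is stable under `φ`, and on `M a / M (a - 1)` the operator `φ` is killed by a nonzero rational
polynomial all of whose complex roots have absolute value `q ^ ((a + i) / 2)`. -/
def MwPure {F H : Type} [Field F] [CharZero F] [AddCommGroup H] [Module F H] (q i : ℕ)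
    (V : Submodule F H) (φ u : Module.End F H) : Prop :=
  ∃ m > 0, ∃ M : ℤ → Submodule F H, Monotone M ∧ (∃ a, M a = ⊥) ∧ (∃ a, ∀ b ≥ a, M b = V) ∧
    (∀ a, ∀ v ∈ M a, (u ^ m - 1) v ∈ M (a - 2)) ∧
    (∀ r : ℕ, (∀ v ∈ M r, ((u ^ m - 1) ^ r) v ∈ M (-r - 1) → v ∈ M (r - 1)) ∧
      ∀ w ∈ M (-r), ∃ v ∈ M r, w - ((u ^ m - 1) ^ r) v ∈ M (-r - 1)) ∧
    ∀ a, (∀ v ∈ M a, φ v ∈ M a) ∧ ∃ P : Polynomial ℚ, P ≠ 0 ∧
      (∀ z : ℂ, Polynomial.aeval z P = 0 → ‖z‖ ^ 2 = (q : ℝ) ^ (a + i)) ∧
        ∀ v ∈ M a, Polynomial.aeval φ (P.map (algebraMap ℚ F)) v ∈ M (a - 1)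

section

variable {K : Type} [NontriviallyNormedField K] {F : Type} [Field F] {n : ℕ}
  {A : ∀ {ι : Type} [Finite ι], Var K n ι → AlgCat.{0} F}
  (gr : ∀ {ι : Type} [Finite ι] (X : Var K n ι), ℕ → Submodule F (A X))
  (pull : ∀ {ι κ : Type} [Finite ι] [Finite κ] {X : Var K n ι} {Y : Var K n κ} (α : κ → ι),
    Maps X Y α → (A Y →ₐ[F] A X))
  (ρ : ∀ {ι : Type} [Finite ι] (X : Var K n ι),
    (AlgebraicClosure K ≃ₐ[K] AlgebraicClosure K) →* (A X ≃ₐ[F] A X))
  (x : ∀ {ι : Type} [Finite ι] (X : Var K n ι), ι → A X)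

/-- Finite-dimensional graded algebras whose even classes are central; the action preserves the
grading and scales the tautological classes, which have degree two, by the character. -/
def Graded (χ : (AlgebraicClosure K ≃ₐ[K] AlgebraicClosure K) →* Fˣ) : Prop :=
  ∀ (ι : Type) [Finite ι] (X : Var K n ι), Module.Finite F (A X) ∧
    DirectSum.IsInternal (gr X) ∧ SetLike.GradedMonoid (gr X) ∧
    (∀ j, ∀ a ∈ gr X (2 * j), ∀ b, a * b = b * a) ∧ (∀ σ j, ∀ a ∈ gr X j, ρ X σ a ∈ gr X j) ∧
    ∀ i, x X i ∈ gr X 2 ∧ ∀ σ, ρ X σ (x X i) = χ σ • x X i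

/-- Pull-backs are functorial and respect the grading, the action and the tautological classes. -/
def Natural : Prop :=
  ∀ (ι κ : Type) [Finite ι] [Finite κ] (X : Var K n ι) (Y : Var K n κ) (α : κ → ι) (h : Maps X Y α),
    (∀ j, ∀ a ∈ gr Y j, pull α h a ∈ gr X j) ∧ (∀ σ a, ρ X σ (pull α h a) = pull α h (ρ Y σ a)) ∧
    (∀ i, pull α h (x Y i) = x X (α i)) ∧ (∀ (h₀ : Maps X X id) a, pull id h₀ a = a) ∧
    ∀ (μ : Type) [Finite μ] (Z : Var K n μ) (β : μ → κ) (h' : Maps Y Z β) (h'' : Maps X Z (α ∘ β))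
      a, pull α h (pull β h' a) = pull (α ∘ β) h'' a

/-- The projective bundle formula for the bundle of lines in the `i`-th subspace. -/
def Bundle : Prop :=
  ∀ (ι : Type) [Finite ι] [Finite (Option ι)] (X : Var K n ι) (P : Var K n (Option ι)) (i : ι)
    (h : Maps P X some),
    P.pts = {z | z ∘ some ∈ X.pts ∧ Module.finrank (AlgebraicClosure K) (z none) = 1 ∧
      z none ≤ z (some i)} →
    Function.Bijective fun a : Fin (X.k i) → A X => ∑ j, pull some h (a j) * x P none ^ (j : ℕ)

/-- Two consequences of the Mayer-Vietoris sequence of an abstract blow-up square. -/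
def Blowup : Prop :=
  ∀ (ι κ : Type) [Finite ι] [Finite κ] (X' D' : Var K n ι) (X D : Var K n κ) (α : κ → ι)
    (h : Maps X' X α) (h' : Maps D' D α) (j : Maps D X id) (j' : Maps D' X' id),
    Set.BijOn (· ∘ α) (X'.pts \ D'.pts) (X.pts \ D.pts) →
    (∀ a b, pull id j' a = pull α h' b → ∃ w, pull α h w = a ∧ pull id j w = b) ∧
      (Function.Surjective (pull id j') → ∀ w, pull α h w = 0 → pull id j w = 0 → w = 0)

/-- Poincare duality for smooth zero loci of dimension `d`. -/
def Duality : Prop :=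
  ∀ (k c s : ℕ) [Finite (Fin s)] (β : Fin k → Fin s) (f : Fin c → MvPolynomial (Fin k × Fin n) K)
    (d : ℕ) (Y : Var K n (Fin s)), Y = zer β f → Sm β f → d + c + ∑ j, Y.k j ^ 2 = k * n →
    ∃ t : A Y →ₗ[F] F, ∀ j, ∀ a ∈ gr Y j, a ≠ 0 →
      ∃ j', ∃ b ∈ gr Y j', j + j' = 2 * d ∧ t (a * b) ≠ 0

/-- The trace of a smooth complete intersection in a product of projective spaces: its kernel is
stable under the action, and on monomials in the hyperplane classes it is the Bezout number. -/
def Trace : Prop :=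
  ∀ (k c : ℕ) [Finite (Fin k)] (g : Fin c → MvPolynomial (Fin k × Fin n) K) e
    (V : Var K n (Fin k)), V = zer id g → 0 < n → MH g e → CI g →
    ∃ t : A V →ₗ[F] F, (∀ σ b, t b = 0 → t (ρ V σ b) = 0) ∧
      ∀ a : Fin k →₀ ℕ, t (List.ofFn fun l => x V l ^ a l).prod = bez n e (monomial a 1)

/-- Specialisation from a zero set in a product of projective spaces to all nearby ones. -/
def Tube : Prop :=
  ∀ (k c : ℕ) [Finite (Fin k)] (f : Fin c → MvPolynomial (Fin k × Fin n) K) e, MH f e →
    ∃ ε > (0 : ℝ),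
    ∀ g, MH g e → (∀ i m, ‖coeff m (g i - f i)‖ < ε) →
      ∀ W V : Var K n (Fin k), W = zer id f → V = zer id g → ∃ s : A W →ₐ[F] A V,
        (∀ j, ∀ a ∈ gr W j, s a ∈ gr V j) ∧ (∀ σ a, ρ V σ (s a) = s (ρ W σ a)) ∧
          ∀ l, s (x W l) = x V l

end

end Pool.Agent.MP_855f4c_ag.Gr
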