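import Pool.Agent.MP_855f4c_ag.Gr.Defs

/-! Closed conditions on tuples of subspaces; projective bundles; the tower of varieties between
a zero locus in a Grassmannian and its abelianisation. -/

namespace Pool.Agent.MP_855f4c_ag.Gr

open MvPolynomial Module

variable {K : Type} [Field K] {n : ℕ} {ι κ : Type}

/-- Tuples of subspaces. -/
abbrev Tup (K : Type) [Field K] (n : ℕ) (ι : Type) :=
  ι → Submodule (AlgebraicClosure K) (Fin n → AlgebraicClosure K)

theorem forall_extend {μ : Type} (γ : μ → ι × ℕ) (hγ : Function.Injective γ) (z : Tup K n ι)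
    (Q : (μ → Fin n → AlgebraicClosure K) → Prop) :
    (∀ M : ι × ℕ → Fin n → AlgebraicClosure K, (∀ p, M p ∈ z p.1) → Q (M ∘ γ)) ↔
      ∀ M : μ → Fin n → AlgebraicClosure K, (∀ m, M m ∈ z (γ m).1) → Q M := by
  constructor
  · intro h M hM
    have := h (Function.extend γ M 0) (fun p => by
      by_cases hp : ∃ m, γ m = p
      · obtain ⟨m, rfl⟩ := hp
        rw [hγ.extend_apply]
        exact hM m
      · rw [Function.extend_apply' _ _ _ hp]
        exact zero_mem _)
    rwa [Function.extend_comp hγ] at this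
  · intro h M hM
    exact h _ fun m => hM _

/-- `P` is a closed condition on tuples of dimensions `k`. -/
def Cl (P : Tup K n ι → Prop) (k : ι → ℕ) : Prop :=
  ∃ S : Set (MvPolynomial ((ι × ℕ) × Fin n) K), ∀ z : Tup K n ι,
    (∀ i, finrank (AlgebraicClosure K) (z i) = k i) →
      (P z ↔ ∀ M : ι × ℕ → Fin n → AlgebraicClosure K, (∀ p, M p ∈ z p.1) →
        ∀ f ∈ S, aeval (fun v => M v.1 v.2) f = 0)

theorem Cl.exists_var {P : Tup K n ι → Prop} {k : ι → ℕ} (h : Cl P k) :
    ∃ X : Var K n ι, X.k = k ∧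
      ∀ z, z ∈ X.pts ↔ (∀ i, finrank (AlgebraicClosure K) (z i) = k i) ∧ P z := by
  obtain ⟨S, hS⟩ := h
  exact ⟨⟨k, S⟩, rfl, fun z => ⟨fun hz => ⟨hz.1, (hS z hz.1).2 hz.2⟩,
    fun hz => ⟨hz.1, (hS z hz.1).1 hz.2⟩⟩⟩

theorem Cl.congr {P Q : Tup K n ι → Prop} {k : ι → ℕ} (h : Cl P k)
    (e : ∀ z : Tup K n ι, (∀ i, finrank (AlgebraicClosure K) (z i) = k i) → (Q z ↔ P z)) :
    Cl Q k := by
  obtain ⟨S, hS⟩ := h
  exact ⟨S, fun z hz => (e z hz).trans (hS z hz)⟩

theorem Cl.all {μ : Sort _} {P : μ → Tup K n ι → Prop} {k : ι → ℕ} (h : ∀ m, Cl (P m) k) :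
    Cl (fun z => ∀ m, P m z) k := by
  choose S hS using h
  refine ⟨⋃ m, S m, fun z hz => ⟨fun H M hM f hf => ?_, fun H m => (hS m z hz).2 fun M hM f hf =>
    H M hM f (Set.mem_iUnion.2 ⟨m, hf⟩)⟩⟩
  obtain ⟨m, hm⟩ := Set.mem_iUnion.1 hf
  exact (hS m z hz).1 (H m) M hM f hm

theorem Cl.and {P Q : Tup K n ι → Prop} {k : ι → ℕ} (h : Cl P k) (h' : Cl Q k) :
    Cl (fun z => P z ∧ Q z) k :=
  (Cl.all (μ := Bool) (P := fun b => cond b P Q) (fun b => by cases b <;> assumption)).congr
    fun z _ => by simp [Bool.forall_bool, and_comm]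

theorem Cl.of_inj {μ : Type} (γ : μ → ι × ℕ) (hγ : Function.Injective γ)
    (S : Set (MvPolynomial (μ × Fin n) K)) (k : ι → ℕ) :
    Cl (fun z : Tup K n ι => ∀ M : μ → Fin n → AlgebraicClosure K, (∀ m, M m ∈ z (γ m).1) →
      ∀ f ∈ S, aeval (fun v => M v.1 v.2) f = 0) k := by
  refine ⟨rename (Prod.map γ id) '' S, fun z _ => ?_⟩
  refine (forall_extend γ hγ z fun M => ∀ f ∈ S, aeval (fun v => M v.1 v.2) f = 0).symm.trans ?_
  refine forall₂_congr fun M _ => ?_
  simp only [Set.forall_mem_image, aeval_rename]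
  rfl

theorem exists_minor {L : Type} [Field L] {m : ℕ} (M : Fin m → Fin n → L)
    (h : LinearIndependent L M) :
    ∃ τ : Fin m → Fin n, (Matrix.of fun a b => M a (τ b)).det ≠ 0 := by
  have h1 : (Matrix.of M).rank = m := by
    simpa using LinearIndependent.rank_matrix (M := Matrix.of M) h
  rw [Matrix.rank_eq_finrank_span_cols] at h1
  obtain ⟨μ, a, ha, hsp, hli⟩ := exists_linearIndependent' L (Matrix.of M).col
  have : Finite μ := Finite.of_injective a ha
  have := Fintype.ofFinite μ
  have h2 : Fintype.card μ = m := by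
    rw [linearIndependent_iff_card_eq_finrank_span.1 hli, Set.finrank, hsp, h1]
  let e : Fin m ≃ μ := (Fintype.equivFinOfCardEq h2).symm
  refine ⟨a ∘ e, ?_⟩
  have h3 : LinearIndependent L (Matrix.of fun i j => M i ((a ∘ e) j)).col :=
    hli.comp e e.injective
  exact ((Matrix.isUnit_iff_isUnit_det _).1 (Matrix.linearIndependent_cols_iff_isUnit.1 h3)).ne_zero

theorem Cl.le (i i' : ι) (k : ι → ℕ) : Cl (fun z : Tup K n ι => z i ≤ z i') k := by
  let γ : Fin (k i' + 1) → ι × ℕ := fun a => (Fin.cons (α := fun _ => ι) i (fun _ => i') a, a)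
  refine (Cl.of_inj γ (fun a b h => Fin.ext (congrArg Prod.snd h))
    (Set.range fun τ : Fin (k i' + 1) → Fin n =>
      (Matrix.of fun a b => (X (a, τ b) : MvPolynomial (Fin (k i' + 1) × Fin n) K)).det) k).congr
    fun z hz => ?_
  have hdet : ∀ (M : Fin (k i' + 1) → Fin n → AlgebraicClosure K) (τ : Fin (k i' + 1) → Fin n),
      aeval (fun v => M v.1 v.2)
        (Matrix.of fun a b => (X (a, τ b) : MvPolynomial (Fin (k i' + 1) × Fin n) K)).det =
        (Matrix.of fun a b => M a (τ b)).det := by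
    intro M τ
    rw [AlgHom.map_det]
    congr 1
    ext a b
    simp
  simp only [Set.forall_mem_range, hdet]
  constructor
  · intro hle M hM τ
    by_contra hne
    have h1 := Matrix.linearIndependent_rows_of_det_ne_zero hne
    have h2 : LinearIndependent (AlgebraicClosure K) M :=
      LinearIndependent.of_comp (LinearMap.funLeft _ _ τ) h1
    have h3 : ∀ a, M a ∈ z i' := fun a => by
      refine Fin.cases ?_ (fun a => ?_) a
      · exact hle (hM 0)
      · exact hM a.succ
    have h4 : LinearIndependent (AlgebraicClosure K) fun a => (⟨M a, h3 a⟩ : z i') :=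
      LinearIndependent.of_comp (z i').subtype h2
    have := h4.fintype_card_le_finrank
    rw [hz i'] at this
    simp at this
  · intro h v hv
    by_contra hv'
    let b := finBasisOfFinrankEq (AlgebraicClosure K) (z i') (hz i')
    have hb : LinearIndependent (AlgebraicClosure K) fun a => (b a : Fin n → AlgebraicClosure K) :=
      b.linearIndependent.map' (z i').subtype (Submodule.ker_subtype _)
    have h1 : LinearIndependent (AlgebraicClosure K)
        (Fin.cons v fun a => (b a : Fin n → AlgebraicClosure K) :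
          Fin (k i' + 1) → Fin n → AlgebraicClosure K) := by
      refine linearIndependent_finCons.2 ⟨hb, fun hs => hv' ?_⟩
      exact (Submodule.span_le.2 (by rintro _ ⟨a, rfl⟩; exact (b a).2)) hs
    obtain ⟨τ, hτ⟩ := exists_minor _ h1
    refine hτ (h _ (fun a => ?_) τ)
    refine Fin.cases ?_ (fun a => ?_) a
    · exact hv
    · exact (b a).2

theorem Cl.pts (X : Var K n κ) (α : κ → ι) (hα : Function.Injective α) (k : ι → ℕ)
    (hk : ∀ i, k (α i) = X.k i) : Cl (fun z : Tup K n ι => z ∘ α ∈ X.pts) k :=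
  (Cl.of_inj (Prod.map α id) (hα.prodMap Function.injective_id) X.S k).congr fun z hz =>
    ⟨fun h => h.2, fun h => ⟨fun i => (hz _).trans (hk i), h⟩⟩

variable {k c : ℕ}

theorem Cl.zero (f : Fin c → MvPolynomial (Fin k × Fin n) K) (β : Fin k → ι) (r : ι → ℕ) :
    Cl (fun z : Tup K n ι => ∀ M, (∀ l, M l ∈ z (β l)) → Zero f M) r :=
  (Cl.of_inj (fun l => (β l, (l : ℕ))) (fun _ _ h => Fin.ext (congrArg Prod.snd h))
    (Set.range f) r).congr fun z _ => by simp [Zero]

theorem mem_zer {s : ℕ} (β : Fin k → Fin s) (f : Fin c → MvPolynomial (Fin k × Fin n) K)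
    (z : Tup K n (Fin s)) : z ∈ (zer β f).pts ↔
      (∀ j, finrank (AlgebraicClosure K) (z j) = (Finset.univ.filter fun l => β l = j).card) ∧
        ∀ M, (∀ l, M l ∈ z (β l)) → Zero f M := by
  rw [← forall_extend (fun l : Fin k => (β l, (l : ℕ)))
    (fun _ _ h => Fin.ext (congrArg Prod.snd h)) z (Zero f)]
  simp only [Var.pts, zer, Set.mem_setOf_eq, Set.forall_mem_range, aeval_rename]
  exact Iff.rfl

theorem exists_PB (X : Var K n ι) (i : ι) : ∃ P : Var K n (Option ι),
    (P.k = fun o => o.elim 1 X.k) ∧ P.pts = {z | z ∘ some ∈ X.pts ∧ finrank (AlgebraicClosure K) (z none) = 1 ∧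
      z none ≤ z (some i)} := by
  obtain ⟨P, hk, hP⟩ := ((Cl.pts X some (Option.some_injective _) (fun o => o.elim 1 X.k)
    fun _ => rfl).and (Cl.le none (some i) _)).exists_var
  refine ⟨P, hk, Set.ext fun z => (hP z).trans ⟨fun h => ⟨h.2.1, h.1 none, h.2.2⟩, fun h =>
    ⟨fun o => ?_, h.1, h.2.2⟩⟩⟩
  cases o with
  | none => exact h.2.1
  | some o => exact h.1.1 o

/-- The projective bundle of lines in the `i`-th subspace. -/
noncomputable def PB (X : Var K n ι) (i : ι) : Var K n (Option ι) := (exists_PB X i).choose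

theorem PB_pts (X : Var K n ι) (i : ι) : (PB X i).pts =
    {z | z ∘ some ∈ X.pts ∧ finrank (AlgebraicClosure K) (z none) = 1 ∧ z none ≤ z (some i)} :=
  (exists_PB X i).choose_spec.2

theorem PB_k (X : Var K n ι) (i j : ι) : (PB X i).k (some j) = X.k j :=
  congrFun (exists_PB X i).choose_spec.1 (some j)

theorem mem_PB {X : Var K n ι} {i : ι} {z : Tup K n (Option ι)} : z ∈ (PB X i).pts ↔
    z ∘ some ∈ X.pts ∧ finrank (AlgebraicClosure K) (z none) = 1 ∧ z none ≤ z (some i) := by
  rw [PB_pts]; rfl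

theorem PB_maps (X : Var K n ι) (i : ι) : Maps (PB X i) X some := fun _ hz => (mem_PB.1 hz).1

section

variable {s : ℕ} (β : Fin k → Fin s)

/-- The indices up to `l` in the block of `l`. -/
def blk (l : Fin k) : Finset (Fin k) := Finset.univ.filter fun l' => l' ≤ l ∧ β l' = β l

theorem mem_blk {l l' : Fin k} : l' ∈ blk β l ↔ l' ≤ l ∧ β l' = β l := by simp [blk]

/-- The `l`-th vector may be taken from the subspace number `l'`. -/
def Adm (t : ℕ) (l l' : Fin k) : Prop := l' = l ∨ (l : ℕ) < t ∧ (l' : ℕ) < t ∧ β l' = β l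

theorem exists_Z (f : Fin c → MvPolynomial (Fin k × Fin n) K) (t : ℕ) :
    ∃ Z : Var K n (Fin k), (Z.k = fun l : Fin k => if (l : ℕ) < t then (blk β l).card else 1) ∧
      ∀ z, z ∈ Z.pts ↔
        (∀ l, finrank (AlgebraicClosure K) (z l) = if (l : ℕ) < t then (blk β l).card else 1) ∧
          (∀ l l' : Fin k, l ≤ l' → (l' : ℕ) < t → β l = β l' → z l ≤ z l') ∧
            ∀ M, (∀ l, ∃ l', Adm β t l l' ∧ M l ∈ z l') → Zero f M :=
  ((Cl.all fun l : Fin k => Cl.all fun l' : Fin k => Cl.all fun (_ : l ≤ l') =>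
    Cl.all fun (_ : (l' : ℕ) < t) => Cl.all fun (_ : β l = β l') => Cl.le l l' _).and
      ((Cl.all fun γ : Fin k → Fin k => Cl.all fun (_ : ∀ l, Adm β t l (γ l)) =>
        Cl.zero f γ _).congr (Q := fun z => ∀ M, (∀ l, ∃ l', Adm β t l l' ∧ M l ∈ z l') → Zero f M)
          fun z _ => ⟨fun h γ hγ M hM => h M fun l => ⟨γ l, hγ l, hM l⟩,
          fun h M hM => by
            choose γ h1 h2 using hM
            exact h γ h1 M h2⟩)).exists_var

/-- Flags in each block built from the first `t` vectors, together with further lines, satisfying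
the equations. -/
noncomputable def Zt (f : Fin c → MvPolynomial (Fin k × Fin n) K) (t : ℕ) : Var K n (Fin k) :=
  (exists_Z β f t).choose

theorem Zt_k (f : Fin c → MvPolynomial (Fin k × Fin n) K) (t : ℕ) (l : Fin k) :
    (Zt β f t).k l = if (l : ℕ) < t then (blk β l).card else 1 :=
  congrFun (exists_Z β f t).choose_spec.1 l

variable {β}

theorem mem_Zt {f : Fin c → MvPolynomial (Fin k × Fin n) K} {t : ℕ} {z : Tup K n (Fin k)} :
    z ∈ (Zt β f t).pts ↔
      (∀ l, finrank (AlgebraicClosure K) (z l) = if (l : ℕ) < t then (blk β l).card else 1) ∧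
        (∀ l l' : Fin k, l ≤ l' → (l' : ℕ) < t → β l = β l' → z l ≤ z l') ∧
          ∀ M, (∀ l, ∃ l', Adm β t l l' ∧ M l ∈ z l') → Zero f M :=
  (exists_Z β f t).choose_spec.2 z

end

theorem exists_sub (X : Var K n ι) (i i' : ι) :
    ∃ D : Var K n ι, ∀ z, z ∈ D.pts ↔ z ∈ X.pts ∧ z i ≤ z i' := by
  obtain ⟨D, -, hD⟩ := ((Cl.pts X id Function.injective_id X.k fun _ => rfl).and
    (Cl.le i i' _)).exists_var
  exact ⟨D, fun z => (hD z).trans ⟨fun h => h.2, fun h => ⟨h.1.1, h⟩⟩⟩

/-- The index map of the contraction. -/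
def nu (t : Fin k) (l : Fin k) : Option (Fin k) := if l = t then none else some l

theorem nu_self (t : Fin k) : nu t t = none := if_pos rfl

theorem nu_ne {t l : Fin k} (h : l ≠ t) : nu t l = some l := if_neg h

variable {s : ℕ} {β : Fin k → Fin s}

theorem dim_succ {t l : Fin k} (hl : l ≠ t) (a b : ℕ) :
    (if (l : ℕ) < t + 1 then a else b) = if (l : ℕ) < t then a else b := by
  refine if_congr ?_ rfl rfl
  have := Fin.val_ne_of_ne hl
  omega

theorem nu_maps (f : Fin c → MvPolynomial (Fin k × Fin n) K) (t : Fin k) :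
    Maps (PB (Zt β f (t + 1)) t) (Zt β f t) (nu t) := by
  intro z hz
  obtain ⟨h1, h2, h3⟩ := mem_PB.1 hz
  obtain ⟨d1, c1, e1⟩ := mem_Zt.1 h1
  refine mem_Zt.2 ⟨fun l => ?_, fun l l' hl hl' hb => ?_, fun M hM => e1 M fun l => ?_⟩
  · by_cases hl : l = t
    · subst hl
      rw [Function.comp_apply, nu_self, h2, if_neg (lt_irrefl _)]
    · rw [Function.comp_apply, nu_ne hl]
      exact (d1 l).trans (dim_succ hl _ _)
  · have hl1 : l ≠ t := fun h => by rw [Fin.le_def] at hl; have := congrArg Fin.val h; omega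
    have hl2 : l' ≠ t := fun h => by have := congrArg Fin.val h; omega
    rw [Function.comp_apply, Function.comp_apply, nu_ne hl1, nu_ne hl2]
    exact c1 l l' hl (by omega) hb
  · obtain ⟨l', ha, hm⟩ := hM l
    by_cases hl : l' = t
    · subst hl
      rw [Function.comp_apply, nu_self] at hm
      exact ⟨l', Or.inl (ha.resolve_right fun h => lt_irrefl _ h.2.1), h3 hm⟩
    · rw [Function.comp_apply, nu_ne hl] at hm
      exact ⟨l', ha.imp_right fun h => ⟨by omega, by omega, h.2.2⟩, hm⟩

theorem first_pts (f : Fin c → MvPolynomial (Fin k × Fin n) K) {t : Fin k}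
    (ht : ∀ l < t, β l ≠ β t) : blk β t = {t} ∧ Maps (Zt β f t) (Zt β f (t + 1)) id := by
  have hb : blk β t = {t} := by
    ext l
    rw [mem_blk, Finset.mem_singleton]
    exact ⟨fun h => h.1.eq_or_lt.resolve_right fun h' => ht l h' h.2, fun h => h ▸ ⟨le_rfl, rfl⟩⟩
  refine ⟨hb, fun z hz => ?_⟩
  obtain ⟨d1, c1, e1⟩ := mem_Zt.1 hz
  refine mem_Zt.2 ⟨fun l => ?_, fun l l' hl hl' h => ?_, fun M hM => e1 M fun l => ?_⟩
  · by_cases hl : l = t
    · subst hl
      rw [if_pos (Nat.lt_succ_self _), hb, Finset.card_singleton]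
      exact (d1 l).trans (if_neg (lt_irrefl _))
    · exact (d1 l).trans (dim_succ hl _ _).symm
  · by_cases h' : l' = t
    · subst h'
      rw [hl.eq_or_lt.resolve_right fun h' => ht l h' h]
    · exact c1 l l' hl (by have := Fin.val_ne_of_ne h'; omega) h
  · obtain ⟨l', ha, hm⟩ := hM l
    refine ⟨l', ?_, hm⟩
    rcases ha with ha | ⟨h1, h2, h3⟩
    · exact Or.inl ha
    by_cases hl : l = t
    · subst hl
      exact Or.inl ((show l' ≤ l from Nat.lt_succ_iff.1 h2).eq_or_lt.resolve_right
        fun h => ht l' h h3)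
    by_cases hl' : l' = t
    · subst hl'
      exact absurd h3.symm (ht l (lt_of_le_of_ne (Nat.lt_succ_iff.1 h1) hl))
    · have := Fin.val_ne_of_ne hl
      have := Fin.val_ne_of_ne hl'
      exact Or.inr ⟨by omega, by omega, h3⟩

theorem blk_insert {p t : Fin k} (hp : p < t) (hβ : β p = β t) (hmax : ∀ l < t, β l = β t → l ≤ p) :
    blk β t = insert t (blk β p) ∧ t ∉ blk β p := by
  refine ⟨?_, fun h => (mem_blk β).1 h |>.1.not_gt hp⟩
  ext l
  rw [Finset.mem_insert, mem_blk, mem_blk]
  constructor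
  · rintro ⟨h1, h2⟩
    exact h1.eq_or_lt.imp_right fun h => ⟨hmax l h h2, h2.trans hβ.symm⟩
  · rintro (rfl | ⟨h1, h2⟩)
    · exact ⟨le_rfl, rfl⟩
    · exact ⟨h1.trans hp.le, h2.trans hβ⟩

theorem finrank_sup_line {L W : Type} [Field L] [AddCommGroup W] [Module L W]
    [FiniteDimensional L W] (A B : Submodule L W) (hB : finrank L B = 1) (h : ¬ B ≤ A) :
    finrank L (A ⊔ B : Submodule L W) = finrank L A + 1 := by
  have h1 := Submodule.finrank_sup_add_finrank_inf_eq A B
  have h2 : finrank L (A ⊓ B : Submodule L W) < finrank L B :=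
    Submodule.finrank_lt_finrank_of_lt (lt_of_le_of_ne inf_le_right fun e => h (e ▸ inf_le_left))
  omega

theorem nu_bij (f : Fin c → MvPolynomial (Fin k × Fin n) K) (hf : Sm β f) {p t : Fin k}
    (hp : p < t) (hβ : β p = β t) (hmax : ∀ l < t, β l = β t → l ≤ p) (D : Var K n (Fin k))
    (hD : ∀ z, z ∈ D.pts ↔ z ∈ (Zt β f t).pts ∧ z t ≤ z p) :
    Set.BijOn (· ∘ nu t) ((PB (Zt β f (t + 1)) t).pts \ (PB (Zt β f (t + 1)) p).pts)
      ((Zt β f t).pts \ D.pts) := by
  have hp' : (p : ℕ) < t := hp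
  have hcard : (blk β t).card = (blk β p).card + 1 := by
    rw [(blk_insert hp hβ hmax).1, Finset.card_insert_of_notMem (blk_insert hp hβ hmax).2]
  have key : ∀ z ∈ (PB (Zt β f (t + 1)) t).pts \ (PB (Zt β f (t + 1)) p).pts,
      ¬ z none ≤ z (some p) ∧ z (some t) = z (some p) ⊔ z none := by
    intro z hz
    obtain ⟨h1, h2, h3⟩ := mem_PB.1 hz.1
    have h4 : ¬ z none ≤ z (some p) := fun h => hz.2 (mem_PB.2 ⟨h1, h2, h⟩)
    obtain ⟨d1, c1, -⟩ := mem_Zt.1 h1
    have h5 : z (some p) ≤ z (some t) := c1 p t hp.le (Nat.lt_succ_self _) hβ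
    refine ⟨h4, (Submodule.eq_of_le_of_finrank_eq (sup_le h5 h3) ?_).symm⟩
    have e1 : finrank (AlgebraicClosure K) (z (some p)) = (blk β p).card :=
      (d1 p).trans (if_pos (by omega))
    have e2 : finrank (AlgebraicClosure K) (z (some t)) = (blk β t).card :=
      (d1 t).trans (if_pos (Nat.lt_succ_self _))
    rw [finrank_sup_line _ _ h2 h4, e1, e2, hcard]
  refine ⟨fun z hz => ⟨nu_maps f t z hz.1, fun h => (key z hz).1 ?_⟩, fun z hz z' hz' h => ?_,
    fun w hw => ?_⟩
  · have := ((hD _).1 h).2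
    simpa only [Function.comp_apply, nu_self, nu_ne hp.ne] using this
  · have h0 : z none = z' none := by simpa only [Function.comp_apply, nu_self] using congrFun h t
    have h1 : ∀ l, l ≠ t → z (some l) = z' (some l) := fun l hl => by
      simpa only [Function.comp_apply, nu_ne hl] using congrFun h l
    funext o
    cases o with
    | none => exact h0
    | some l =>
      by_cases hl : l = t
      · rw [hl, (key z hz).2, (key z' hz').2, h0, h1 p hp.ne]
      · exact h1 l hl
  · obtain ⟨d1, c1, e1⟩ := mem_Zt.1 hw.1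
    have h4 : ¬ w t ≤ w p := fun h => hw.2 ((hD w).2 ⟨hw.1, h⟩)
    have e2 : finrank (AlgebraicClosure K) (w p) = (blk β p).card := (d1 p).trans (if_pos hp')
    have e3 : finrank (AlgebraicClosure K) (w t) = 1 := (d1 t).trans (if_neg (lt_irrefl _))
    let z : Tup K n (Option (Fin k)) := fun o =>
      o.elim (w t) (Function.update w t (w p ⊔ w t))
    have z0 : z none = w t := rfl
    have zt : z (some t) = w p ⊔ w t := Function.update_self ..
    have zl : ∀ l, l ≠ t → z (some l) = w l := fun l hl => Function.update_of_ne hl ..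
    have hch : ∀ l ≤ t, β l = β t → z (some l) ≤ w p ⊔ w t := fun l hl hb => by
      rcases hl.eq_or_lt with h | h
      · rw [h, zt]
      · rw [zl l h.ne]
        exact (c1 l p (hmax l h hb) hp' (hb.trans hβ.symm)).trans le_sup_left
    have hz1 : z ∘ some ∈ (Zt β f (t + 1)).pts := by
      refine mem_Zt.2 ⟨fun l => ?_, fun l l' hl hl' hb => ?_, fun M hM => ?_⟩
      · by_cases hl : l = t
        · subst hl
          rw [Function.comp_apply, zt, finrank_sup_line _ _ e3 h4, e2,
            if_pos (Nat.lt_succ_self _), hcard]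
        · rw [Function.comp_apply, zl l hl]
          exact (d1 l).trans (dim_succ hl _ _).symm
      · by_cases h2 : l' = t
        · subst h2
          rw [Function.comp_apply, Function.comp_apply, zt]
          exact hch l hl hb
        · have h3 : (l' : ℕ) < t := by have := Fin.val_ne_of_ne h2; omega
          have h1 : l ≠ t := (hl.trans_lt h3).ne
          rw [Function.comp_apply, Function.comp_apply, zl l h1, zl l' h2]
          exact c1 l l' hl h3 hb
      · let b := (finBasisOfFinrankEq (AlgebraicClosure K) (w p) e2).reindex (blk β p).equivFin.symm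
        let v := finBasisOfFinrankEq (AlgebraicClosure K) (w t) e3
        let M' : Fin k → Fin n → AlgebraicClosure K := fun l =>
          if h : l ∈ blk β p then (b ⟨l, h⟩ : Fin n → AlgebraicClosure K)
          else if l = t then (v 0 : Fin n → AlgebraicClosure K) else M l
        have hM' : Zero f M' := e1 M' fun l => by
          simp only [M']
          split_ifs with h1 h2
          · obtain ⟨h2, h3⟩ := (mem_blk β).1 h1
            exact ⟨p, Or.inr ⟨h2.trans_lt hp, hp', h3.symm⟩, (b _).2⟩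
          · exact ⟨l, Or.inl rfl, h2 ▸ (v 0).2⟩
          · obtain ⟨l', ha, hm⟩ := hM l
            rcases ha with rfl | ⟨h3, h5, h6⟩
            · exact ⟨l', Or.inl rfl, zl l' h2 ▸ hm⟩
            · have h7 : l < t := lt_of_le_of_ne (Nat.lt_succ_iff.1 h3) h2
              have h8 : l' ≠ t := fun h => h1 ((mem_blk β).2
                ⟨hmax l h7 (h ▸ h6.symm), (h ▸ h6.symm : β l = β t).trans hβ.symm⟩)
              exact ⟨l', Or.inr ⟨h7, lt_of_le_of_ne (Nat.lt_succ_iff.1 h5) (Fin.val_ne_of_ne h8),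
                h6⟩, zl l' h8 ▸ hm⟩
        refine (hf M' hM').1 M fun l => ?_
        have hsub : ∀ {μ : Type} [Fintype μ]
            {U : Submodule (AlgebraicClosure K) (Fin n → AlgebraicClosure K)}
            (b : Basis μ (AlgebraicClosure K) U) (T : Set (Fin n → AlgebraicClosure K)),
            (∀ a, (b a : Fin n → AlgebraicClosure K) ∈ T) →
              U ≤ Submodule.span (AlgebraicClosure K) T := by
          intro μ _ U b T hb u hu
          have := congrArg Subtype.val (b.sum_repr ⟨u, hu⟩)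
          simp only [AddSubmonoidClass.coe_finset_sum, SetLike.val_smul] at this
          rw [← this]
          exact Submodule.sum_mem _ fun a _ => Submodule.smul_mem _ _ (Submodule.subset_span (hb a))
        by_cases hl : l ≤ t ∧ β l = β t
        · have h1 : M l ∈ w p ⊔ w t := by
            obtain ⟨l', ha, hm⟩ := hM l
            rcases ha with rfl | ⟨-, h5, h6⟩
            · exact hch l' hl.1 hl.2 hm
            · exact hch l' (Nat.lt_succ_iff.1 h5) (h6.trans hl.2) hm
          refine sup_le (hsub b (M' '' {l' | β l' = β l}) fun a =>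
            ⟨a, ((mem_blk β).1 a.2).2.trans (hβ.trans hl.2.symm), ?_⟩)
            (hsub v (M' '' {l' | β l' = β l}) fun a => ⟨t, hl.2.symm, ?_⟩) h1
          · simp only [M']
            rw [dif_pos a.2]
          · simp only [M']
            rw [dif_neg (blk_insert hp hβ hmax).2, if_pos trivial, Subsingleton.elim a 0]
        · refine Submodule.subset_span ⟨l, rfl, ?_⟩
          simp only [M']
          rw [dif_neg fun h => hl ⟨((mem_blk β).1 h).1.trans hp.le, ((mem_blk β).1 h).2.trans hβ⟩,
            if_neg fun h : l = t => hl ⟨h.le, congrArg β h⟩]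
    refine ⟨z, ⟨mem_PB.2 ⟨hz1, e3, ?_⟩, fun h => h4 ?_⟩, ?_⟩
    · rw [zt]; exact le_sup_right
    · have := (mem_PB.1 h).2.2
      rwa [zl p hp.ne] at this
    · funext l
      by_cases hl : l = t
      · simp only [Function.comp_apply, hl, nu_self, z0]
      · simp only [Function.comp_apply, nu_ne hl, zl l hl]

end Pool.Agent.MP_855f4c_ag.Gr
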