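import Pool.Agent.MP_855f4c_ag.Gr.Defs

/-! Direct summands of monodromy-weight pure modules. -/

namespace Pool.Agent.MP_855f4c_ag.Gr

open Polynomial

variable {F : Type} [Field F]

section

variable {H : Type} [AddCommGroup H] [Module F H]

theorem shift_pow {N : Module.End F H} {M : ℤ → Submodule F H}
    (hN : ∀ a, ∀ x ∈ M a, N x ∈ M (a - 2)) (k : ℕ) (a : ℤ) (x : H) (hx : x ∈ M a) :
    (N ^ k) x ∈ M (a - 2 * k) := by
  induction k with
  | zero => simpa using hx
  | succ k ih =>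
    have := hN _ _ ih
    rw [pow_succ', Module.End.mul_apply]
    convert this using 2
    push_cast; ring

theorem pow_comm_on {N T : Module.End F H} {V : Submodule F H} (hNV : ∀ v ∈ V, N v ∈ V)
    (h : ∀ v ∈ V, T (N v) = N (T v)) (r : ℕ) :
    ∀ v ∈ V, (N ^ r) v ∈ V ∧ T ((N ^ r) v) = (N ^ r) (T v) := by
  induction r with
  | zero => intro v hv; simpa using hv
  | succ r ih =>
    intro v hv
    obtain ⟨h1, h2⟩ := ih v hv
    simp only [pow_succ', Module.End.mul_apply]
    exact ⟨hNV _ h1, by rw [h _ h1, h2]⟩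

/-- An endomorphism commuting with `N` preserves the monodromy filtration. -/
theorem monfil_map {N T : Module.End F H} {V : Submodule F H} {M : ℤ → Submodule F H}
    (mM : Monotone M) (hb : ∃ a, M a = ⊥) (ht : ∃ a, ∀ b ≥ a, M b = V)
    (nM : ∀ a, ∀ v ∈ M a, N v ∈ M (a - 2))
    (lM : ∀ r : ℕ, (∀ v ∈ M r, (N ^ r) v ∈ M (-r - 1) → v ∈ M (r - 1)) ∧
      ∀ w ∈ M (-r), ∃ v ∈ M r, w - (N ^ r) v ∈ M (-r - 1))
    (hT : ∀ v ∈ V, T v ∈ V) (hTN : ∀ v ∈ V, T (N v) = N (T v)) (a : ℤ) :
    ∀ v ∈ M a, T v ∈ M a := by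
  obtain ⟨b, hb⟩ := hb
  obtain ⟨t, ht⟩ := ht
  have hle : ∀ a, M a ≤ V := fun a =>
    (mM (le_max_left a t)).trans (ht _ (le_max_right a t)).le
  have hNV : ∀ v ∈ V, N v ∈ V := fun v hv => hle _ (nM t v ((ht t le_rfl).symm ▸ hv))
  have key : ∀ s r : ℕ, b.natAbs + t.natAbs ≤ r + s →
      (∀ v ∈ M r, T v ∈ M r) ∧ ∀ v ∈ M (-r - 1), T v ∈ M (-r - 1) := by
    intro s
    induction s with
    | zero =>
      intro r hr
      constructor
      · intro v hv
        rw [ht r (by omega)] at hv ⊢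
        exact hT v hv
      · intro v hv
        have : v ∈ M b := mM (show -(r : ℤ) - 1 ≤ b by omega) hv
        rw [hb, Submodule.mem_bot] at this
        simp [this]
    | succ s ih =>
      intro r hr
      obtain ⟨h1, h2⟩ := ih (r + 1) (by omega)
      constructor
      · intro x hx
        have h3 := (lM (r + 1)).1 (T x) (h1 x (mM (by push_cast; omega) hx)) (by
          rw [← (pow_comm_on hNV hTN (r + 1) x (hle _ hx)).2]
          apply h2
          have := shift_pow nM (r + 1) r x hx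
          convert this using 2
          push_cast; ring)
        convert h3 using 2
        push_cast; ring
      · intro y hy
        obtain ⟨x, hx, hxy⟩ := (lM (r + 1)).2 y (by convert hy using 2; push_cast; ring)
        have h3 : T ((N ^ (r + 1)) x) ∈ M (-r - 1) := by
          rw [(pow_comm_on hNV hTN (r + 1) x (hle _ hx)).2]
          have := shift_pow nM (r + 1) _ _ (h1 x hx)
          convert this using 2
          push_cast; ring
        have h4 : T (y - (N ^ (r + 1)) x) ∈ M (-r - 1) := mM (by push_cast; omega) (h2 _ hxy)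
        simpa using add_mem h4 h3
  rcases le_or_gt 0 a with ha | ha
  · obtain ⟨r, rfl⟩ := Int.eq_ofNat_of_zero_le ha
    exact (key (b.natAbs + t.natAbs) r (by omega)).1
  · obtain ⟨r, hr⟩ := Int.eq_ofNat_of_zero_le (show 0 ≤ -a - 1 by omega)
    have := (key (b.natAbs + t.natAbs) r (by omega)).2
    rwa [show -(r : ℤ) - 1 = a by omega] at this

theorem aeval_mem {φ : Module.End F H} {U : Submodule F H} (hU : ∀ x ∈ U, φ x ∈ U) (Q : F[X]) :
    ∀ x ∈ U, aeval φ Q x ∈ U := by
  induction Q using Polynomial.induction_on with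
  | C a => intro x hx; simpa using U.smul_mem a hx
  | add p q hp hq => intro x hx; simpa using add_mem (hp x hx) (hq x hx)
  | monomial n a ih =>
    intro x hx
    rw [pow_succ, ← mul_assoc, map_mul, aeval_X, Module.End.mul_apply]
    exact ih _ (hU x hx)

end

section

variable {A B : Type} [AddCommGroup A] [Module F A] [AddCommGroup B] [Module F B]

theorem aeval_intertwine {φ : Module.End F A} {ψ : Module.End F B} {ι : A →ₗ[F] B}
    (h : ∀ v, ψ (ι v) = ι (φ v)) (Q : F[X]) : ∀ v, aeval ψ Q (ι v) = ι (aeval φ Q v) := by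
  induction Q using Polynomial.induction_on with
  | C a => intro v; simp
  | add p q hp hq => intro v; simp [hp, hq]
  | monomial n a ih =>
    intro v
    rw [pow_succ, ← mul_assoc, map_mul, map_mul (aeval φ), aeval_X, aeval_X, Module.End.mul_apply,
      Module.End.mul_apply, h, ih]

theorem pow_intertwine {φ : Module.End F A} {ψ : Module.End F B} {ι : A →ₗ[F] B}
    (h : ∀ v, ψ (ι v) = ι (φ v)) (m : ℕ) : ∀ v, (ψ ^ m) (ι v) = ι ((φ ^ m) v) := by
  simpa using aeval_intertwine h (X ^ m)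

theorem exists_retraction (V : Submodule F A) (U C : Submodule F B) (ι : A →ₗ[F] B)
    (hC : ∀ b ∈ U, ∃ v ∈ V, b - ι v ∈ C) (hCi : ∀ v ∈ V, ι v ∈ C → v = 0) :
    ∃ R : B →ₗ[F] A, ∀ b ∈ U, R b ∈ V ∧ b - ι (R b) ∈ C := by
  choose g hg1 hg2 using hC
  have huniq : ∀ b, ∀ v ∈ V, ∀ v' ∈ V, b - ι v ∈ C → b - ι v' ∈ C → v = v' := by
    intro b v hv v' hv' h1 h2
    have := hCi (v - v') (sub_mem hv hv') (by
      have := sub_mem h2 h1
      simpa using this)
    exact sub_eq_zero.1 this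
  let R0 : U →ₗ[F] A :=
    { toFun := fun b => g b b.2
      map_add' := fun b b' => huniq (b + b' : U) _ (hg1 _ _) _ (add_mem (hg1 _ _) (hg1 _ _))
        (hg2 _ _) (by
          have := add_mem (hg2 b b.2) (hg2 b' b'.2)
          convert this using 1
          simp only [Submodule.coe_add, map_add]; abel)
      map_smul' := fun s b => huniq (s • b : U) _ (hg1 _ _) _ (V.smul_mem s (hg1 _ _))
        (hg2 _ _) (by
          have := C.smul_mem s (hg2 b b.2)
          convert this using 1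
          simp only [Submodule.coe_smul, map_smul, RingHom.id_apply, smul_sub]) }
  obtain ⟨R, hR⟩ := LinearMap.exists_extend R0
  refine ⟨R, fun b hb => ?_⟩
  have : R b = g b hb := LinearMap.congr_fun hR ⟨b, hb⟩
  rw [this]
  exact ⟨hg1 _ _, hg2 _ _⟩

variable [CharZero F]

theorem MwPure.of_summand {q i r : ℕ} (hq : 0 < q) (V : Submodule F A) (U C : Submodule F B)
    (φ u : Module.End F A) (φ' u' : Module.End F B) (ι : A →ₗ[F] B)
    (hι : ∀ v ∈ V, ι v ∈ U) (hC : ∀ b ∈ U, ∃ v ∈ V, b - ι v ∈ C) (hCi : ∀ v ∈ V, ι v ∈ C → v = 0)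
    (huC : ∀ b ∈ C, u' b ∈ C) (huU : ∀ b ∈ U, u' b ∈ U)
    (hφ : ∀ v, φ' (ι v) = (q : F) ^ r • ι (φ v)) (hu : ∀ v, u' (ι v) = ι (u v))
    (hφV : ∀ v ∈ V, φ v ∈ V) (huV : ∀ v ∈ V, u v ∈ V)
    (h : MwPure q (i + 2 * r) U φ' u') : MwPure q i V φ u := by
  obtain ⟨m, hm, M, mM, hb, ht, nM, lM, pM⟩ := h
  obtain ⟨R, hR⟩ := exists_retraction V U C ι hC hCi
  have huniq : ∀ b ∈ U, ∀ v ∈ V, b - ι v ∈ C → R b = v := by
    intro b hb v hv h1
    have := hCi (R b - v) (sub_mem (hR b hb).1 hv) (by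
      have := sub_mem h1 (hR b hb).2
      simpa using this)
    exact sub_eq_zero.1 this
  set N : Module.End F A := u ^ m - 1 with hN
  set N' : Module.End F B := u' ^ m - 1 with hN'
  have hNι : ∀ v, N' (ι v) = ι (N v) := by
    intro v
    simp [hN, hN', pow_intertwine hu m v]
  have hst : ∀ {H : Type} [AddCommGroup H] [Module F H] (W : Submodule F H) (w : Module.End F H),
      (∀ b ∈ W, w b ∈ W) → ∀ b ∈ W, (w ^ m - 1) b ∈ W := by
    intro H _ _ W w hw b hb
    have := aeval_mem hw (X ^ m - 1) b hb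
    rwa [map_sub, map_pow, aeval_X, map_one] at this
  have hNV : ∀ v ∈ V, N v ∈ V := hst V u huV
  have hNU : ∀ v ∈ U, N' v ∈ U := hst U u' huU
  have hNC : ∀ v ∈ C, N' v ∈ C := hst C u' huC
  have hRN : ∀ b ∈ U, R (N' b) = N (R b) := by
    intro b hb
    refine huniq _ (hNU b hb) _ (hNV _ (hR b hb).1) ?_
    rw [← hNι, ← map_sub]
    exact hNC _ (hR b hb).2
  let T : Module.End F B := ι ∘ₗ R
  have hT : ∀ b ∈ U, T b ∈ U := fun b hb => hι _ (hR b hb).1
  have hTN : ∀ b ∈ U, T (N' b) = N' (T b) := fun b hb => by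
    simp only [T, LinearMap.comp_apply, hRN b hb, hNι]
  have hTM := monfil_map mM hb ht nM lM hT hTN
  have hle : ∀ a, M a ≤ U := by
    obtain ⟨t, ht⟩ := ht
    exact fun a => (mM (le_max_left a t)).trans (ht _ (le_max_right a t)).le
  refine ⟨m, hm, fun a => V ⊓ (M a).comap ι, fun a b hab => inf_le_inf_left _
    (Submodule.comap_mono (mM hab)), ?_, ?_, ?_, ?_, ?_⟩
  · obtain ⟨a, ha⟩ := hb
    refine ⟨a, eq_bot_iff.2 fun v hv => ?_⟩
    have h2 : ι v ∈ M a := hv.2
    rw [ha, Submodule.mem_bot] at h2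
    exact hCi v hv.1 (h2 ▸ C.zero_mem)
  · obtain ⟨a, ha⟩ := ht
    refine ⟨a, fun b hb => le_antisymm inf_le_left (le_inf le_rfl fun v hv => ?_)⟩
    rw [ha b hb]
    exact hι v hv
  · intro a v hv
    refine ⟨hNV v hv.1, ?_⟩
    change ι (N v) ∈ M (a - 2)
    rw [← hNι]
    exact nM a _ hv.2
  · intro s
    constructor
    · intro v hv h1
      refine ⟨hv.1, (lM s).1 _ hv.2 ?_⟩
      rw [pow_intertwine hNι]
      exact h1.2
    · intro w hw
      obtain ⟨b, hb1, hb2⟩ := (lM s).2 _ hw.2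
      have hbU := hle _ hb1
      refine ⟨R b, ⟨(hR b hbU).1, hTM _ _ hb1⟩, sub_mem hw.1 ?_, ?_⟩
      · simpa using aeval_mem hNV (X ^ s) _ (hR b hbU).1
      · have h3 := hTM _ _ hb2
        change ι (w - (N ^ s) (R b)) ∈ M (-s - 1)
        convert h3 using 1
        rw [map_sub, map_sub, (pow_comm_on hNU hTN s b hbU).2, ← pow_intertwine hNι]
        congr 1
        change ι w = ι (R (ι w))
        rw [huniq _ (hι w hw.1) w hw.1 (by simp)]
  · intro a
    have hq' : (q : F) ^ r ≠ 0 := pow_ne_zero _ (Nat.cast_ne_zero.2 hq.ne')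
    constructor
    · intro v hv
      refine ⟨hφV v hv.1, ?_⟩
      have := (pM a).1 _ hv.2
      rw [hφ] at this
      exact ((M a).smul_mem_iff hq').1 this
    · obtain ⟨P, hP0, hP1, hP2⟩ := (pM a).2
      refine ⟨P.comp (Polynomial.C ((q : ℚ) ^ r) * X), ?_, ?_, ?_⟩
      · intro h0
        rcases comp_eq_zero_iff.1 h0 with h1 | ⟨-, h1⟩
        · exact hP0 h1
        · have := congrArg (fun p => Polynomial.coeff p 1) h1
          simp only [coeff_C_mul, coeff_X_one, mul_one, coeff_C_succ] at this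
          exact pow_ne_zero _ (Nat.cast_ne_zero.2 hq.ne') this
      · intro z hz
        rw [aeval_comp] at hz
        have h1 := hP1 _ hz
        have hqR : (q : ℝ) ≠ 0 := Nat.cast_ne_zero.2 hq.ne'
        simp only [map_mul, aeval_C, aeval_X, map_pow, map_natCast, norm_mul, norm_pow,
          Complex.norm_natCast] at h1
        rw [show a + ((i + 2 * r : ℕ) : ℤ) = ((2 * r : ℕ) : ℤ) + (a + i) by push_cast; ring,
          zpow_add₀ hqR, zpow_natCast, mul_pow, ← pow_mul, mul_comm r 2] at h1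
        exact mul_left_cancel₀ (pow_ne_zero _ hqR) h1
      · intro v hv
        refine ⟨aeval_mem hφV _ v hv.1, ?_⟩
        have h1 := hP2 _ hv.2
        rw [aeval_intertwine (φ := (q : F) ^ r • φ) (fun v => by rw [hφ]; simp)] at h1
        change ι _ ∈ M (a - 1)
        convert h1 using 3
        rw [Polynomial.map_comp, aeval_comp]
        congr 1
        simp [Algebra.smul_def]

end

end Pool.Agent.MP_855f4c_ag.Gr
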