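import Pool.Agent.MP_855f4c_ag.Gr.Alg

/-! One step of the tower, and the composite map from the flag variety to the abelianisation. -/

namespace Pool.Agent.MP_855f4c_ag.Gr

open Polynomial Module

variable {K : Type} [NontriviallyNormedField K] {F : Type} [Field F] {n : ℕ} (H : Coh K F n)
  {ι κ μ : Type} [Finite ι] [Finite κ] [Finite μ] {k c : ℕ}

namespace Coh

theorem eval_gr {X : Var K n ι} {r : ℕ} {P : (H.Ev X)[X]} (h0 : ∀ m > r, P.coeff m = 0)
    (h : ∀ m ≤ r, (P.coeff m : H.A X) ∈ H.gr X (2 * (r - m)) ∧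
      ∀ σ, H.ρ X σ (P.coeff m) = H.χ σ ^ (r - m) • (P.coeff m : H.A X)) (t : ι) :
    ((P.eval (H.xe X t) : H.Ev X) : H.A X) ∈ H.gr X (2 * r) ∧
      ∀ σ, H.ρ X σ (P.eval (H.xe X t) : H.Ev X) =
        H.χ σ ^ r • ((P.eval (H.xe X t) : H.Ev X) : H.A X) := by
  have e : ((P.eval (H.xe X t) : H.Ev X) : H.A X) =
      ∑ j : Fin (r + 1), (P.coeff j : H.A X) * H.x X t ^ (j : ℕ) := by
    rw [eval, eval₂_sum _ _ _ (r + 1) fun m hm => h0 m hm]
    simp [coe_xe]
  rw [e]
  constructor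
  · refine Submodule.sum_mem _ fun j _ => ?_
    have := H.mul_gr (h j (by have := j.2; omega)).1 (H.pow_gr (H.x_gr X t) j)
    rwa [show 2 * (r - j) + 2 * j = 2 * r by have := j.2; omega] at this
  · intro σ
    rw [map_sum, Finset.smul_sum]
    refine Finset.sum_congr rfl fun j _ => ?_
    rw [map_mul, map_pow, H.ρ_x, (h j (by have := j.2; omega)).2, _root_.smul_pow, smul_mul_assoc,
      mul_smul_comm, ← mul_smul, ← pow_add, Nat.sub_add_cancel (by have := j.2; omega)]

theorem factor {X : Var K n ι} {i i' : ι} {r : ℕ} (hr : X.k i = r) (hle : ∀ z ∈ X.pts, z i ≤ z i')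
    {P P' : (H.Ev X)[X]} (hP' : H.IsRel X i r P') (hP : H.IsRel X i' (r + 1) P) :
    ∃ y, P = P' * (Polynomial.X - C y) := by
  let y := (P' * Polynomial.X).coeff r - P.coeff r
  refine ⟨y, sub_eq_zero.1 (H.eq_zero_of_eval₂ X i _ (fun m hm => ?_) ?_)⟩
  · rw [hr] at hm
    rw [mul_sub, coeff_sub, coeff_sub, coeff_mul_C]
    rcases hm.eq_or_lt with h | h
    · rw [← h, hP'.1]
      simp [y]
    · obtain ⟨m, rfl⟩ : ∃ m', m = m' + 1 := ⟨m - 1, by omega⟩
      rw [coeff_mul_X, hP'.2.1 (m + 1) h, zero_mul, sub_zero]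
      rcases (show r ≤ m by omega).eq_or_lt with h1 | h1
      · rw [← h1, hP.1, hP'.1, sub_self]
      · rw [hP.2.1 _ (by omega), hP'.2.1 _ h1, sub_self]
  · rw [eval₂_sub, eval₂_mul, hP'.2.2 _ _ _ _ _ fun z hz => (mem_PB.1 hz).2, zero_mul, sub_zero]
    exact hP.2.2 _ _ _ _ _ fun z hz =>
      ⟨(mem_PB.1 hz).2.1, (mem_PB.1 hz).2.2.trans (hle _ (mem_PB.1 hz).1)⟩

/-- Pairs of even classes which act compatibly through `J`. -/
def compat {X : Var K n ι} {Y : Var K n κ} (J : H.A X →ₗ[F] H.A Y) : Subring (H.Ev X × H.Ev Y) where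
  carrier := {p | ∀ y, J (p.1 * y) = p.2 * J y}
  mul_mem' := fun {a b} ha hb y => by
    simp only [Prod.fst_mul, Prod.snd_mul, MulMemClass.coe_mul, mul_assoc]
    rw [ha, hb]
  one_mem' := fun y => by simp
  add_mem' := fun {a b} ha hb y => by
    simp only [Prod.fst_add, Prod.snd_add, Subalgebra.coe_add, add_mul, map_add]
    rw [ha, hb]
  zero_mem' := fun y => by simp
  neg_mem' := fun {a} ha y => by
    simp only [Prod.fst_neg, Prod.snd_neg, Subalgebra.coe_neg, neg_mul, map_neg]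
    rw [ha]

variable {s : ℕ} {β : Fin k → Fin s}

/-- The properties of the map attached to one step of the tower. -/
def StepOut (β : Fin k → Fin s) (f : Fin c → MvPolynomial (Fin k × Fin n) K) (t : Fin k) (r : ℕ)
    (Q : (H.Ev (Zt β f t))[X]) : Prop :=
  ∃ j : H.A (Zt β f (t + 1)) →ₗ[F] H.A (Zt β f t),
    (∀ m, ∀ a ∈ H.gr (Zt β f (t + 1)) m, j a ∈ H.gr (Zt β f t) (m + 2 * r)) ∧
    (∀ σ a, H.ρ _ σ (j a) = H.χ σ ^ r • j (H.ρ _ σ a)) ∧
    (∀ a b, j a * j b = (Q.eval (H.xe _ t) : H.Ev _) * j (a * b)) ∧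
    j 1 = (Q.eval (H.xe _ t) : H.Ev _) ∧
    (∀ l, l ≠ t → (H.xe _ l, H.xe _ l) ∈ H.compat j) ∧
    (∀ P, H.IsRel (Zt β f (t + 1)) t (r + 1) P →
      ∀ m, (P.coeff m, (Q * (Polynomial.X - C (H.xe _ t))).coeff m) ∈ H.compat j) ∧
    ∀ l : Fin k, (l : ℕ) < t → ∀ P P', H.IsRel (Zt β f (t + 1)) l (blk β l).card P →
      H.IsRel (Zt β f t) l (blk β l).card P' → ∀ m, (P.coeff m, P'.coeff m) ∈ H.compat j

theorem step_first (f : Fin c → MvPolynomial (Fin k × Fin n) K) {t : Fin k}
    (ht : ∀ l < t, β l ≠ β t) : H.StepOut β f t 0 1 := by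
  obtain ⟨hb, hW⟩ := first_pts f ht
  have hc : ∀ a : H.Ev (Zt β f (t + 1)),
      (a, H.evp id hW a) ∈ H.compat (H.pull id hW).toLinearMap :=
    fun a y => map_mul (H.pull id hW) _ _
  refine ⟨(H.pull id hW).toLinearMap, fun m a ha => by simpa using H.pull_gr _ _ _ _ ha,
    fun σ a => by simpa using H.ρ_pull _ _ _ _, fun a b => by simp, by simp,
    fun l _ => by simpa only [evp_xe, id] using hc (H.xe _ l), fun P hP m => ?_,
    fun l hl P P' hP hP' m => ?_⟩
  · have h1 := hP.2.2 _ _ id hW t fun z hz =>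
      ⟨((mem_Zt.1 hz).1 t).trans (if_neg (lt_irrefl _)), le_rfl⟩
    rw [eval₂_sum _ _ _ 2 fun m hm => hP.2.1 m hm, Fin.sum_univ_two] at h1
    have h2 : P.coeff 1 = 1 := hP.1
    simp only [Fin.val_zero, Fin.val_one, pow_zero, mul_one, pow_one, h2, one_mul, map_one] at h1
    have h3 : H.evp id hW (P.coeff m) = (1 * (Polynomial.X - C (H.xe _ t))).coeff m := by
      rcases m with _ | _ | m
      · simpa using eq_neg_of_add_eq_zero_left h1
      · simp [h2]
      · rw [hP.2.1 _ (show m + 1 + 1 > 0 + 1 by omega)]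
        simp [coeff_X]
    exact h3 ▸ hc (P.coeff m)
  · have := (hP.map H hW).unique H ((Zt_k β f t l).trans (if_pos hl)) hP'
    rw [← this, coeff_map]
    exact hc _

theorem step (f : Fin c → MvPolynomial (Fin k × Fin n) K) (hf : Sm β f) {p t : Fin k}
    (hpt : p < t) (hβ : β p = β t) (hmax : ∀ l < t, β l = β t → l ≤ p)
    {Q : (H.Ev (Zt β f t))[X]} (hQ : H.IsRel (Zt β f t) p (blk β p).card Q) :
    H.StepOut β f t (blk β p).card Q := by
  have hpt' : (p : ℕ) < t := hpt
  obtain ⟨D, hD⟩ := exists_sub (Zt β f t) t p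
  have hp := PB_maps (Zt β f (t + 1)) t
  have hp' := PB_maps (Zt β f (t + 1)) p
  have hν := nu_maps (β := β) f t
  have hchain : ∀ z ∈ (Zt β f (t + 1)).pts, z p ≤ z t := fun z hz =>
    (mem_Zt.1 hz).2.1 p t hpt.le (Nat.lt_succ_self _) hβ
  have hj' : Maps (PB (Zt β f (t + 1)) p) (PB (Zt β f (t + 1)) t) id := fun z hz =>
    mem_PB.2 ⟨(mem_PB.1 hz).1, (mem_PB.1 hz).2.1, (mem_PB.1 hz).2.2.trans (hchain _ (mem_PB.1 hz).1)⟩
  have hj : Maps D (Zt β f t) id := fun z hz => ((hD z).1 hz).1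
  have hν' : Maps (PB (Zt β f (t + 1)) p) D (nu t) := fun z hz => (hD _).2 ⟨hν z (hj' z hz), by
    simpa only [Function.comp_apply, nu_self, nu_ne hpt.ne] using (mem_PB.1 hz).2.2⟩
  obtain ⟨hex, hun⟩ := H.hblowup _ _ _ _ _ _ _ hν hν' hj hj' (nu_bij f hf hpt hβ hmax D hD)
  have hsurj : Function.Surjective (H.pull id hj') := by
    intro b
    obtain ⟨a, rfl⟩ := (H.bundle _ _ p hp' (PB_pts _ _)).2 b
    refine ⟨∑ m, H.pull some hp (a m) * H.x _ none ^ (m : ℕ), ?_⟩
    simp only [map_sum, map_mul, map_pow, H.pull_x, H.pull_comp' id some some rfl hj' hp hp', id]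
  replace hun := hun hsurj
  have hks : (Zt β f t).k p = (blk β p).card := by rw [Zt_k, if_pos hpt']
  obtain ⟨Q', hQ', hQg⟩ := H.exists_isRel (Zt β f t) p hks
  obtain rfl : Q' = Q := hQ'.unique H hks hQ
  obtain ⟨θg, θρ⟩ := H.eval_gr hQ.2.1 hQg t
  unfold StepOut
  set θ : H.Ev (Zt β f t) := Q'.eval (H.xe _ t) with hθ
  have θD : H.pull id hj θ = 0 := by
    have h1 := hQ.2.2 _ D id hj t fun z hz =>
      ⟨((mem_Zt.1 ((hD z).1 hz).1).1 t).trans (if_neg (lt_irrefl _)), ((hD z).1 hz).2⟩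
    have h2 : H.evp id hj θ = 0 := by
      rw [← h1, hθ, eval, hom_eval₂, RingHom.comp_id, evp_xe, id]
    exact congrArg Subtype.val h2
  have hnn : Maps (PB (Zt β f (t + 1)) p) (Zt β f t) (nu t) := maps_comp hj' hν
  obtain ⟨j, hjj⟩ := exists_lift_map (H.pull _ hν).toLinearMap (H.pull id hj).toLinearMap
    (LinearMap.mulLeft F (H.pull _ hν θ) ∘ₗ (H.pull some hp).toLinearMap) (fun a => hex _ 0 (by
      simp only [LinearMap.comp_apply, LinearMap.mulLeft_apply, AlgHom.toLinearMap_apply, map_mul,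
        map_zero]
      rw [H.pull_comp' id (nu t) (nu t) rfl hj' hν hnn,
        ← H.pull_comp' (nu t) id (nu t) rfl hν' hj hnn, θD, map_zero, zero_mul])) hun
  simp only [LinearMap.comp_apply, LinearMap.mulLeft_apply, AlgHom.toLinearMap_apply] at hjj
  have huniq : ∀ w w', H.pull _ hν w = H.pull _ hν w' → H.pull id hj w = H.pull id hj w' → w = w' :=
    fun w w' h1 h2 => sub_eq_zero.1 (hun _ (by rw [map_sub, h1, sub_self])
      (by rw [map_sub, h2, sub_self]))
  have hcomm : ∀ (a : H.Ev (Zt β f t)) b, H.pull _ hν a * b = b * H.pull _ hν a := fun a b =>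
    H.Ev_comm (H.evp _ hν a) b
  have hdown : ∀ (a : H.Ev (Zt β f (t + 1))) (a' : H.Ev (Zt β f t)),
      H.evp _ hν θ * H.evp some hp a = H.evp _ hν θ * H.evp _ hν a' → (a, a') ∈ H.compat j := by
    intro a a' h y
    have h' : H.pull _ hν θ * H.pull some hp a = H.pull _ hν θ * H.pull _ hν a' :=
      congrArg Subtype.val h
    refine huniq _ _ ?_ ?_
    · rw [(hjj _).1, map_mul, map_mul, (hjj _).1, ← mul_assoc, h', ← mul_assoc, hcomm a']
    · rw [(hjj _).2, map_mul, (hjj _).2, mul_zero]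
  have hrel : ∀ l : Fin k, (l : ℕ) < t → ∀ P P', H.IsRel (Zt β f (t + 1)) l (blk β l).card P →
      H.IsRel (Zt β f t) l (blk β l).card P' → P'.map (H.evp _ hν) = P.map (H.evp some hp) := by
    intro l hl P P' hP hP'
    have h1 := hP'.map H hν
    rw [nu_ne (show l < t from hl).ne] at h1
    exact h1.unique H ((PB_k _ _ _).trans ((Zt_k ..).trans (if_pos (by omega)))) (hP.map H hp)
  refine ⟨j, fun m a ha => ?_, fun σ a => huniq _ _ ?_ ?_, fun a b => huniq _ _ ?_ ?_,
    huniq _ _ ?_ ?_, fun l hl => hdown _ _ ?_, fun P hP m => hdown _ _ ?_,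
    fun l hl P P' hP hP' m => hdown _ _ ?_⟩
  · letI := (H.internal (Zt β f t)).chooseDecomposition
    letI := (H.internal (PB (Zt β f (t + 1)) t)).chooseDecomposition
    letI := (H.internal D).chooseDecomposition
    have h1 : H.pull _ hν (j a) ∈ H.gr _ (m + 2 * (blk β p).card) := by
      rw [(hjj a).1, add_comm m]
      exact H.mul_gr (H.pull_gr _ _ _ _ θg) (H.pull_gr _ _ _ _ ha)
    have h2 : j a = DirectSum.decompose (H.gr (Zt β f t)) (j a) (m + 2 * (blk β p).card) := by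
      refine huniq _ _ ?_ ?_
      · have := proj_map (H.gr _) (H.gr _) (H.pull _ hν).toLinearMap 0
          (fun i b hb => H.pull_gr _ _ i b hb) (j a) (m + 2 * (blk β p).card)
        simp only [AlgHom.toLinearMap_apply, add_zero] at this
        rw [← this]
        exact (DirectSum.decompose_of_mem_same _ h1).symm
      · have := proj_map (H.gr _) (H.gr _) (H.pull id hj).toLinearMap 0
          (fun i b hb => H.pull_gr _ _ i b hb) (j a) (m + 2 * (blk β p).card)
        simp only [AlgHom.toLinearMap_apply, add_zero] at this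
        rw [← this, (hjj a).2]
        simp
    rw [h2]
    exact Subtype.property _
  · rw [← H.ρ_pull, (hjj _).1, map_mul, H.ρ_pull, H.ρ_pull, θρ, Units.smul_def, Units.smul_def,
      map_smul, map_smul, (hjj _).1, smul_mul_assoc]
  · rw [← H.ρ_pull, (hjj _).2, map_zero, Units.smul_def, map_smul, (hjj _).2, smul_zero]
  · rw [map_mul, map_mul, (hjj _).1, (hjj _).1, (hjj _).1, map_mul, mul_assoc, ← mul_assoc _ _
      (H.pull some hp b), ← hcomm θ, mul_assoc]
  · rw [map_mul, map_mul, (hjj _).2, θD, zero_mul, zero_mul]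
  · rw [(hjj _).1, map_one, mul_one]
  · rw [(hjj _).2, θD]
  · rw [evp_xe, evp_xe, nu_ne hl]
  · have hkt : (Zt β f (t + 1)).k p = (blk β p).card := by rw [Zt_k, if_pos (by omega)]
    obtain ⟨P', hP', -⟩ := H.exists_isRel (Zt β f (t + 1)) p hkt
    obtain ⟨y0, hy0⟩ := H.factor hkt hchain hP' hP
    have e1 := hrel p hpt' P' Q' hP' hQ
    have e2 : H.evp _ hν θ = (P'.map (H.evp some hp)).eval (H.xe _ none) := by
      rw [← e1, eval_map, hθ, eval, hom_eval₂, RingHom.comp_id, evp_xe, nu_self]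
    have e3 : H.evp _ hν θ * (H.xe _ none - H.evp some hp y0) = 0 := by
      have h1 := hP.2.2 _ _ some hp none fun z hz => (mem_PB.1 hz).2
      rw [hy0, eval₂_mul, eval₂_sub, eval₂_X, eval₂_C] at h1
      rw [e2, eval_map, h1]
    have e4 : C (H.evp _ hν θ) * P.map (H.evp some hp) =
        C (H.evp _ hν θ) * (Q' * (Polynomial.X - C (H.xe _ t))).map (H.evp _ hν) := by
      rw [hy0, Polynomial.map_mul, Polynomial.map_mul, e1, Polynomial.map_sub, Polynomial.map_sub,
        map_X, map_X, map_C, map_C, evp_xe, nu_self]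
      have h2 := congrArg C e3
      rw [map_mul, map_sub, map_zero] at h2
      linear_combination (P'.map (H.evp some hp)) * h2
    have := congrArg (fun p => p.coeff m) e4
    simpa only [coeff_C_mul, coeff_map] using this
  · rw [← coeff_map, ← coeff_map, hrel l hl P P' hP hP']

theorem tower (f : Fin c → MvPolynomial (Fin k × Fin n) K) (hf : Sm β f) (t : ℕ) (ht : t ≤ k) :
    ∃ (r : ℕ) (J : H.A (Zt β f t) →ₗ[F] H.A (zer id f)),
      (∀ m, ∀ a ∈ H.gr (Zt β f t) m, J a ∈ H.gr (zer id f) (m + 2 * r)) ∧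
      (∀ σ a, H.ρ _ σ (J a) = H.χ σ ^ r • J (H.ρ _ σ a)) ∧
      (∀ a b, J a * J b = (∏ l ∈ Finset.univ.filter fun l : Fin k => (l : ℕ) < t, ∏ i ∈ (blk β l).erase l,
        (H.xe (zer id f) l - H.xe (zer id f) i) : H.Ev _) * J (a * b)) ∧
      J 1 = (∏ l ∈ Finset.univ.filter fun l : Fin k => (l : ℕ) < t, ∏ i ∈ (blk β l).erase l,
        (H.xe (zer id f) l - H.xe (zer id f) i) : H.Ev _) ∧
      (∀ l : Fin k, t ≤ l → (H.xe _ l, H.xe _ l) ∈ H.compat J) ∧
      ∀ l : Fin k, (l : ℕ) < t → ∀ P, H.IsRel (Zt β f t) l (blk β l).card P → ∀ m,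
        (P.coeff m, (∏ i ∈ blk β l, (Polynomial.X - C (H.xe (zer id f) i))).coeff m) ∈
          H.compat J := by
  induction t with
  | zero =>
    have hW : Maps (zer id f) (Zt β f 0) id := fun z hz => by
      obtain ⟨h1, h2⟩ := (mem_zer id f z).1 hz
      refine mem_Zt.2 ⟨fun l => by simpa [Finset.filter_eq'] using h1 l,
        fun l l' _ hl' => absurd hl' (Nat.not_lt_zero _), fun M hM => h2 M fun l => ?_⟩
      obtain ⟨l', ha, hm⟩ := hM l
      exact ha.resolve_right (fun h => Nat.not_lt_zero _ h.1) ▸ hm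
    refine ⟨0, (H.pull id hW).toLinearMap, fun m a ha => by simpa using H.pull_gr _ _ _ _ ha,
      fun σ a => by simpa using H.ρ_pull _ _ _ _, fun a b => by simp, by simp, fun l _ y => ?_,
      fun l hl => absurd hl (Nat.not_lt_zero _)⟩
    exact (map_mul (H.pull id hW) _ _).trans (congrArg (· * _) (H.pull_x id hW l))
  | succ t ih =>
    obtain ⟨r, J, J1, J2, J3, J4, J5, J6⟩ := ih (by omega)
    obtain ⟨t, rfl⟩ : ∃ t' : Fin k, (t' : ℕ) = t := ⟨⟨t, ht⟩, rfl⟩
    set R : (H.Ev (zer id f))[X] :=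
      ∏ i ∈ (blk β t).erase t, (Polynomial.X - C (H.xe (zer id f) i)) with hR
    have htt : t ∈ blk β t := (mem_blk β).2 ⟨le_rfl, rfl⟩
    obtain ⟨r', Q, hr', hQ0, hQR, j, j1, j2, j3, j4, j5, j6, j7⟩ :
        ∃ r' Q, ((blk β t).erase t).card = r' ∧ (∀ m > r', Q.coeff m = 0) ∧
          (∀ m, (Q.coeff m, R.coeff m) ∈ H.compat J) ∧ H.StepOut β f t r' Q := by
      by_cases h : ∀ l < t, β l ≠ β t
      · refine ⟨0, 1, by simp [(first_pts f h).1], fun m hm => by rw [coeff_one, if_neg hm.ne'],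
          fun m => ?_, H.step_first f h⟩
        rw [hR, (first_pts f h).1, Finset.erase_singleton, Finset.prod_empty, coeff_one, coeff_one]
        split_ifs
        · exact Subring.one_mem _
        · exact Subring.zero_mem _
      · push Not at h
        obtain ⟨p, hp, hmax⟩ := Finset.exists_max_image
          (Finset.univ.filter fun l => l < t ∧ β l = β t) id (by simpa [Finset.Nonempty] using h)
        simp only [Finset.mem_filter, Finset.mem_univ, true_and, id, and_imp] at hp hmax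
        obtain ⟨Q, hQ, -⟩ := H.exists_isRel (Zt β f t) p ((Zt_k ..).trans (if_pos hp.1))
        obtain ⟨h1, h2⟩ := blk_insert hp.1 hp.2 hmax
        refine ⟨_, Q, by rw [h1, Finset.erase_insert h2], hQ.2.1, ?_, H.step f hf hp.1 hp.2 hmax hQ⟩
        rw [hR, h1, Finset.erase_insert h2]
        exact J6 p hp.1 Q hQ
    have hRdeg : ∀ m ≥ r' + 1, R.coeff m = 0 := fun m hm => by
      refine coeff_eq_zero_of_natDegree_lt (lt_of_le_of_lt (natDegree_prod_le _ _) ?_)
      refine lt_of_le_of_lt (Finset.sum_le_card_nsmul _ _ 1 fun i _ => natDegree_X_sub_C_le _) ?_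
      simp only [hr', smul_eq_mul, mul_one]
      omega
    have hθ : (Q.eval (H.xe _ t), R.eval (H.xe _ t)) ∈ H.compat J := by
      rw [eval, eval, eval₂_sum _ _ Q (r' + 1) fun m hm => hQ0 m hm,
        eval₂_sum _ _ R (r' + 1) hRdeg, prod_mk_sum]
      exact Subring.sum_mem _ fun m _ =>
        Subring.mul_mem _ (hQR m) (Subring.pow_mem _ (J5 t le_rfl) m)
    have hθ' : R.eval (H.xe _ t) =
        ∏ i ∈ (blk β t).erase t, (H.xe (zer id f) t - H.xe (zer id f) i) := by
      simp [hR, eval_prod]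
    have hI : (Finset.univ.filter fun l : Fin k => (l : ℕ) < t + 1) =
        insert t (Finset.univ.filter fun l : Fin k => (l : ℕ) < t) := by
      ext l
      simp only [Finset.mem_filter, Finset.mem_univ, true_and, Finset.mem_insert, Fin.ext_iff]
      omega
    have hnot : t ∉ Finset.univ.filter fun l : Fin k => (l : ℕ) < t := by simp
    have hcomp : ∀ {a b c}, (a, b) ∈ H.compat j → (b, c) ∈ H.compat J →
        (a, c) ∈ H.compat (J ∘ₗ j) := fun h1 h2 y => (congrArg J (h1 y)).trans (h2 _)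
    refine ⟨r' + r, J ∘ₗ j, fun m a ha => ?_, fun σ a => ?_, fun a b => ?_, ?_,
      fun l hl => hcomp (j5 l (show t < l from hl).ne') (J5 l (by omega)), fun l hl P hP m => ?_⟩
    · have := J1 _ _ (j1 m a ha)
      rwa [add_assoc, ← mul_add] at this
    · rw [LinearMap.comp_apply, LinearMap.comp_apply, J2, j2, Units.smul_def, Units.smul_def,
        map_smul, Units.smul_def, ← mul_smul, add_comm r', pow_add, Units.val_mul]
    · rw [LinearMap.comp_apply, LinearMap.comp_apply, LinearMap.comp_apply, J3, j3, hθ, hθ', hI,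
        Finset.prod_insert hnot, mul_comm (∏ i ∈ (blk β t).erase t, _), MulMemClass.coe_mul,
        mul_assoc]
    · have := hθ 1
      rw [mul_one] at this
      rw [LinearMap.comp_apply, j4, this, J4, hθ', hI, Finset.prod_insert hnot, MulMemClass.coe_mul]
    · by_cases hlt : l = t
      · subst hlt
        refine hcomp (j6 P (by rwa [← hr', Finset.card_erase_add_one htt]) m) ?_
        rw [← Finset.prod_erase_mul _ _ htt, ← hR]
        rcases m with _ | m
        · simp only [mul_coeff_zero, coeff_sub, coeff_X_zero, coeff_C_zero, zero_sub]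
          exact Subring.mul_mem _ (hQR 0) (Subring.neg_mem _ (J5 l le_rfl))
        · rw [coeff_mul_X_sub_C, coeff_mul_X_sub_C]
          exact Subring.sub_mem _ (hQR m) (Subring.mul_mem _ (hQR (m + 1)) (J5 l le_rfl))
      · have hl' : (l : ℕ) < t := by have := Fin.val_ne_of_ne hlt; omega
        obtain ⟨P', hP', -⟩ := H.exists_isRel (Zt β f t) l ((Zt_k ..).trans (if_pos hl'))
        exact hcomp (j7 l hl' P P' hP hP' m) (J6 l hl' P' hP' m)

end Coh

end Pool.Agent.MP_855f4c_ag.Gr
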