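import Pool.Agent.MP_855f4c_ag.Gr.LinAlg
import Pool.Agent.MP_855f4c_ag.Gr.Step
import Pool.Agent.MP_855f4c_ag.Gr.Bertini

/-! The cohomology of a zero locus in a Grassmannian is a direct summand of the cohomology of a
smooth complete intersection in a product of projective spaces. -/

namespace Pool.Agent.MP_855f4c_ag.Gr

open Module MvPolynomial

variable {K : Type} [NontriviallyNormedField K] {F : Type} [Field F] {n : ℕ} (H : Coh K F n)
  {k c s : ℕ}

namespace Coh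

theorem map_aeval_xe {X Y : Var K n (Fin k)} (s : H.A X →ₐ[F] H.A Y)
    (hs : ∀ l, s (H.x X l) = H.x Y l) (Q : MvPolynomial (Fin k) ℤ) :
    s (aeval (H.xe X) Q : H.Ev X) = (aeval (H.xe Y) Q : H.Ev Y) := by
  induction Q using MvPolynomial.induction_on with
  | C a => simp
  | add p q hp hq => simp [hp, hq]
  | mul_X p v hp => simp only [map_mul, aeval_X, MulMemClass.coe_mul, hp, coe_xe, hs]

theorem trace_aeval {X : Var K n (Fin k)} (e : Fin c → Fin k → ℕ) (t : H.A X →ₗ[F] F)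
    (ht : ∀ a : Fin k →₀ ℕ, t (List.ofFn fun l => H.x X l ^ a l).prod = bez n e (monomial a 1))
    (Q : MvPolynomial (Fin k) ℤ) : t (aeval (H.xe X) Q : H.Ev X) = bez n e Q := by
  induction Q using MvPolynomial.induction_on' with
  | add p q hp hq =>
    simp only [map_add, Subalgebra.coe_add, hp, hq, bez, add_mul, coeff_add, Int.cast_add]
  | monomial u a =>
    have h1 : ((∏ l, H.xe X l ^ u l : H.Ev X) : H.A X) = (List.ofFn fun l => H.x X l ^ u l).prod := by
      rw [← List.prod_ofFn]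
      exact (map_list_prod (H.Ev X).val _).trans (by rw [List.map_ofFn]; rfl)
    have h2 : (monomial u a : MvPolynomial (Fin k) ℤ) = C a * monomial u 1 := by
      rw [C_mul_monomial, mul_one]
    have h3 : bez n e (monomial u a) = a * bez n e (monomial u 1) := by
      rw [h2, bez, bez, mul_assoc, coeff_C_mul]
    rw [h3, aeval_monomial, Finsupp.prod_fintype _ _ fun _ => pow_zero _, MulMemClass.coe_mul, h1,
      Int.cast_mul, ← ht]
    simp [← zsmul_eq_mul]

theorem ample (β : Fin k → Fin s) (hβ : Function.Surjective β)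
    (f : Fin c → MvPolynomial (Fin k × Fin n) K) (hf : Sm β f) :
    ∃ (r : ℕ) (J : H.A (zer β f) →ₗ[F] H.A (zer id f)) (E : H.Ev (zer id f)) (ω : H.Ev (zer β f)),
      (∀ m, ∀ a ∈ H.gr (zer β f) m, J a ∈ H.gr (zer id f) (m + 2 * r)) ∧
      (∀ σ a, H.ρ _ σ (J a) = H.χ σ ^ r • J (H.ρ _ σ a)) ∧
      (∀ a b, J a * J b = E * J (a * b)) ∧ J 1 = E ∧
      E = ∏ l, ∏ i ∈ Finset.Iio l with β i = β l, (H.xe (zer id f) l - H.xe (zer id f) i) ∧
      (ω : H.A (zer β f)) ∈ H.gr (zer β f) 2 ∧ (ω, ∑ l, H.xe (zer id f) l) ∈ H.compat J := by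
  have htop : ∀ j, ∃ t, β t = j ∧ blk β t = Finset.univ.filter fun l => β l = j := fun j => by
    obtain ⟨t, ht, hmax⟩ := Finset.exists_max_image (Finset.univ.filter fun l => β l = j) id
      (by simpa [Finset.Nonempty] using hβ j)
    simp only [Finset.mem_filter, Finset.mem_univ, true_and, id] at ht hmax
    refine ⟨t, ht, Finset.ext fun l => ?_⟩
    simp only [mem_blk, Finset.mem_filter, Finset.mem_univ, true_and, ht]
    exact ⟨fun h => h.2, fun h => ⟨hmax l h, h⟩⟩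
  choose α hα hb using htop
  have hY : Maps (Zt β f k) (zer β f) α := fun z hz => by
    obtain ⟨h1, -, h3⟩ := mem_Zt.1 hz
    exact (mem_zer β f _).2 ⟨fun j => ((h1 (α j)).trans (if_pos (α j).2)).trans (by rw [hb]),
      fun M hM => h3 M fun l => ⟨α (β l), Or.inr ⟨l.2, (α _).2, hα _⟩, hM l⟩⟩
  obtain ⟨r, J, J1, J2, J3, J4, -, J6⟩ := H.tower (β := β) f hf k le_rfl
  choose P hP hPg using fun j => H.exists_isRel (zer β f) j (r := (blk β (α j)).card) (by
    rw [hb]; rfl)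
  have hpos : ∀ j, 0 < (blk β (α j)).card := fun j =>
    Finset.card_pos.2 ⟨α j, (mem_blk β).2 ⟨le_rfl, rfl⟩⟩
  generalize hE : (∏ l ∈ Finset.univ.filter fun l : Fin k => (l : ℕ) < k,
    ∏ i ∈ (blk β l).erase l, (H.xe (zer id f) l - H.xe (zer id f) i) : H.Ev _) = E at J3 J4
  refine ⟨r, J ∘ₗ (H.pull α hY).toLinearMap, E, ∑ j, -(P j).coeff ((blk β (α j)).card - 1),
    fun m a ha => J1 _ _ (H.pull_gr _ _ _ _ ha), fun σ a => ?_, fun a b => ?_, ?_, ?_, ?_, ?_⟩
  rotate_left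
  · exact (J3 _ _).trans (congrArg (fun y => E * J y) (map_mul (H.pull α hY) a b).symm)
  · exact (congrArg J (map_one (H.pull α hY))).trans J4
  · rw [← hE, Finset.filter_true_of_mem fun l _ => l.2]
    refine Finset.prod_congr rfl fun l _ => Finset.prod_congr (Finset.ext fun i => ?_) fun _ _ => rfl
    simp only [Finset.mem_erase, mem_blk, Finset.mem_filter, Finset.mem_Iio, lt_iff_le_and_ne]
    tauto
  · rw [AddSubmonoidClass.coe_finset_sum]
    refine Submodule.sum_mem _ fun j _ => ?_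
    have := (hPg j _ (Nat.sub_le _ 1)).1
    rw [Nat.sub_sub_self (hpos j)] at this
    exact neg_mem this
  · rw [← Finset.sum_fiberwise Finset.univ β, prod_mk_sum]
    refine Subring.sum_mem _ fun j _ y => ?_
    have h1 := Subring.neg_mem _ (J6 (α j) (α j).2 _ ((hP j).map H hY) ((blk β (α j)).card - 1))
    rw [Polynomial.prod_X_sub_C_coeff_card_pred _ _ (hpos j), Polynomial.coeff_map, Prod.neg_mk,
      neg_neg, ← map_neg] at h1
    rw [← hb]
    exact (congrArg J (map_mul (H.pull α hY) _ _)).trans (h1 _)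
  · exact (J2 _ _).trans (congrArg (fun y => H.χ σ ^ r • J y) (H.ρ_pull α hY σ a))

theorem summand [CharZero K] [CharZero F] {d : ℕ} (hn : 0 < n) (β : Fin k → Fin s)
    (hβ : Function.Surjective β) (e : Fin c → Fin k → ℕ)
    (f : Fin c → MvPolynomial (Fin k × Fin n) K) (he : MH f e) (hf : Sm β f)
    (hd : d + c + ∑ j, (zer β f).k j ^ 2 = k * n) (conn : finrank F (H.gr (zer β f) 0) = 1)
    (hnum : bez n e ((∏ l, ∏ i ∈ Finset.Iio l with β i = β l, (X l - X i)) ^ 2 *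
      (∑ l, X l) ^ d) ≠ 0) :
    ∃ g, MH g e ∧ CI g ∧ ∃ (r : ℕ) (j : H.A (zer β f) →ₗ[F] H.A (zer id g)),
      (∀ m, ∀ a ∈ H.gr (zer β f) m, j a ∈ H.gr (zer id g) (m + 2 * r)) ∧
      (∀ σ a, H.ρ _ σ (j a) = H.χ σ ^ r • j (H.ρ _ σ a)) ∧
      ∀ m, ∃ C : Submodule F (H.A (zer id g)), (∀ b, ∃ v ∈ H.gr (zer β f) m, b - j v ∈ C) ∧
        (∀ v ∈ H.gr (zer β f) m, j v ∈ C → v = 0) ∧ ∀ σ, ∀ b ∈ C, H.ρ _ σ b ∈ C := by
  obtain ⟨r, J, E, ω, J1, J2, J3, J4, hE, hω0, J5⟩ := H.ample β hβ f hf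
  obtain ⟨ε, hε, htube⟩ := H.htube _ _ f e he
  obtain ⟨g, hg, hgs, hgε⟩ := exists_smooth_near f e he hε
  obtain ⟨s, s1, s2, s3⟩ := htube g hg hgε _ _ rfl rfl
  obtain ⟨τ, τ1, τ2⟩ := H.htrace _ _ g e _ rfl hn hg hgs
  obtain ⟨tY, htY⟩ := H.hduality _ _ _ β f d _ rfl hf hd
  let j : H.A (zer β f) →ₗ[F] H.A (zer id g) := s.toLinearMap ∘ₗ J
  have hj : ∀ a, j a = s (J a) := fun a => rfl
  have jρ : ∀ σ a, H.ρ _ σ (j a) = H.χ σ ^ r • j (H.ρ _ σ a) := fun σ a => by
    rw [hj, hj, s2, J2, Units.smul_def, Units.smul_def, map_smul]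
  let Λ : H.A (zer β f) →ₗ[F] F := τ ∘ₗ LinearMap.mulLeft F (s E) ∘ₗ j
  have hΛ : ∀ a b, τ (j a * j b) = Λ (a * b) := fun a b => by
    rw [hj, hj, ← map_mul, J3, map_mul]
    rfl
  have hfin := H.fin (zer β f)
  have hdim : ∀ m m', m + m' = 2 * d →
      finrank F (H.gr (zer β f) m) ≤ finrank F (H.gr (zer β f) m') := by
    intro m m' hm
    rw [← Subspace.dual_finrank_eq (V := H.gr (zer β f) m')]
    refine LinearMap.finrank_le_finrank_of_injective
      (f := (((LinearMap.mul F _).compr₂ tY).compl₁₂ (H.gr (zer β f) m).subtype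
        (H.gr (zer β f) m').subtype)) ((injective_iff_map_eq_zero _).2 fun a ha => ?_)
    by_contra h0
    obtain ⟨j', b, hb, hj', hab⟩ := htY m a a.2 fun h => h0 (Subtype.ext h)
    obtain rfl : j' = m' := by omega
    exact hab (LinearMap.congr_fun ha ⟨b, hb⟩)
  have hω : ((ω ^ d : H.Ev _) : H.A (zer β f)) ∈ H.gr (zer β f) (2 * d) := H.pow_gr hω0 d
  have hΛω : Λ (ω ^ d : H.Ev _) ≠ 0 := by
    have h3 := Subring.pow_mem _ J5 d 1
    simp only [Prod.pow_fst, Prod.pow_snd, mul_one, J4] at h3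
    have h5 : (aeval (H.xe (zer id f)) ((∏ l, ∏ i ∈ Finset.Iio l with β i = β l, (X l - X i)) ^ 2 *
        (∑ l, X l) ^ d : MvPolynomial (Fin k) ℤ) : H.Ev _) =
          E * ((∑ l, H.xe (zer id f) l) ^ d * E) := by
      simp only [map_mul, map_pow, map_prod, map_sub, map_sum, aeval_X, ← hE]
      ring
    change τ (s E * j _) ≠ 0
    rw [hj, h3, ← map_mul, ← MulMemClass.coe_mul, ← MulMemClass.coe_mul, ← h5,
      H.map_aeval_xe s s3, H.trace_aeval e τ τ2]
    exact Int.cast_ne_zero.2 hnum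
  have htop : ∀ a ∈ H.gr (zer β f) (2 * d), Λ a = 0 → a = 0 := by
    intro a ha h0
    have h1 := (hdim (2 * d) 0 rfl).trans conn.le
    obtain ⟨w, hw⟩ := finrank_le_one_iff.1 h1
    obtain ⟨y, hy⟩ := hw ⟨a, ha⟩
    obtain ⟨y', hy'⟩ := hw ⟨_, hω⟩
    have e1 : a = y • (w : H.A (zer β f)) := (congrArg Subtype.val hy).symm
    have e2 := (congrArg Subtype.val hy').symm
    simp only [SetLike.val_smul] at e2
    rw [e2, map_smul, smul_eq_mul] at hΛω
    rw [e1, map_smul, smul_eq_mul] at h0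
    rw [e1, (mul_eq_zero.1 h0).resolve_right (right_ne_zero_of_mul hΛω), zero_smul]
  have hnd : ∀ m, ∀ v ∈ H.gr (zer β f) m,
      (∀ m', m + m' = 2 * d → ∀ a ∈ H.gr (zer β f) m', τ (j v * j a) = 0) → v = 0 := by
    intro m v hv h
    by_contra h0
    obtain ⟨m', b, hb, hm, hab⟩ := htY m v hv h0
    rw [htop (v * b) (hm ▸ H.mul_gr hv hb) (hΛ v b ▸ h m' hm b hb), map_zero] at hab
    exact hab rfl
  refine ⟨g, hg, hgs, _, j, fun m a ha => s1 _ _ (J1 _ _ ha), jρ, fun m => ?_⟩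
  let C : Submodule F (H.A (zer id g)) :=
    { carrier := {b | ∀ m', m + m' = 2 * d → ∀ a ∈ H.gr (zer β f) m', τ (b * j a) = 0}
      add_mem' := fun hb hb' m' hm a ha => by rw [add_mul, map_add, hb m' hm a ha, hb' m' hm a ha,
        add_zero]
      zero_mem' := fun m' hm a ha => by rw [zero_mul, map_zero]
      smul_mem' := fun y b hb m' hm a ha => by rw [smul_mul_assoc, map_smul, hb m' hm a ha,
        smul_zero] }
  refine ⟨C, fun b => ?_, hnd m, fun σ b hb m' hm a ha => ?_⟩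
  · rcases lt_or_ge (2 * d) m with hm | hm
    · exact ⟨0, zero_mem _, fun m' hm' => by omega⟩
    obtain ⟨m', hm'⟩ := Nat.exists_eq_add_of_le hm
    let Φ : H.gr (zer β f) m →ₗ[F] Dual F (H.gr (zer β f) m') :=
      ((LinearMap.mul F _).compr₂ τ).compl₁₂ (j ∘ₗ (H.gr (zer β f) m).subtype)
        (j ∘ₗ (H.gr (zer β f) m').subtype)
    have hinj : Function.Injective Φ := (injective_iff_map_eq_zero _).2 fun v hv =>
      Subtype.ext (hnd m v v.2 fun m'' hm'' a ha => by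
        obtain rfl : m'' = m' := by omega
        exact LinearMap.congr_fun hv ⟨a, ha⟩)
    have hsurj : Function.Surjective Φ :=
      (LinearMap.injective_iff_surjective_of_finrank_eq_finrank (by
        rw [Subspace.dual_finrank_eq]
        exact le_antisymm (hdim _ _ hm'.symm) (hdim _ _ (by omega)))).1 hinj
    obtain ⟨v, hv⟩ := hsurj (τ ∘ₗ LinearMap.mulLeft F b ∘ₗ j ∘ₗ (H.gr (zer β f) m').subtype)
    refine ⟨v, v.2, fun m'' hm'' a ha => ?_⟩
    obtain rfl : m'' = m' := by omega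
    rw [sub_mul, map_sub, sub_eq_zero]
    exact (LinearMap.congr_fun hv ⟨a, ha⟩).symm
  · have h1 := τ1 σ _ (hb m' hm _ (H.ρ_gr _ σ⁻¹ _ a ha))
    rw [map_mul, jρ, ← AlgEquiv.mul_apply, ← map_mul, mul_inv_cancel, map_one, AlgEquiv.one_apply,
      Units.smul_def, mul_smul_comm, map_smul, smul_eq_mul] at h1
    exact (mul_eq_zero.1 h1).resolve_left (Units.ne_zero _)

theorem transfer [CharZero K] [CharZero F] {d q : ℕ} (hn : 0 < n) (β : Fin k → Fin s)
    (hβ : Function.Surjective β) (e : Fin c → Fin k → ℕ)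
    (σ Φ : AlgebraicClosure K ≃ₐ[K] AlgebraicClosure K) (hσ : H.χ σ = 1) (hΦ : (H.χ Φ : F) = q)
    (toric : ∀ g : Fin c → MvPolynomial (Fin k × Fin n) K, MH g e → CI g → ∀ i,
      MwPure q i (H.gr (zer id g) i) (H.ρ _ Φ).toLinearMap (H.ρ _ σ).toLinearMap)
    (f : Fin c → MvPolynomial (Fin k × Fin n) K) (he : MH f e) (hf : Sm β f)
    (hd : d + c + ∑ j, (zer β f).k j ^ 2 = k * n) (conn : finrank F (H.gr (zer β f) 0) = 1)
    (hnum : bez n e ((∏ l, ∏ i ∈ Finset.Iio l with β i = β l, (X l - X i)) ^ 2 *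
      (∑ l, X l) ^ d) ≠ 0) (i : ℕ) :
    MwPure q i (H.gr (zer β f) i) (H.ρ _ Φ).toLinearMap (H.ρ _ σ).toLinearMap := by
  obtain ⟨g, hg, hgs, r, j, j1, j2, hC⟩ := H.summand hn β hβ e f he hf hd conn hnum
  obtain ⟨C, C1, C2, C3⟩ := hC i
  have hq : 0 < q := Nat.pos_of_ne_zero fun h => (H.χ Φ).ne_zero (by rw [hΦ, h, Nat.cast_zero])
  refine MwPure.of_summand hq _ (H.gr (zer id g) (i + 2 * r)) C _ _ _ _ j (j1 i) (fun b _ => C1 b) C2
    (C3 σ) (H.ρ_gr _ σ _) (fun v => ?_) (fun v => ?_) (H.ρ_gr _ Φ _) (H.ρ_gr _ σ _)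
    (toric g hg hgs _)
  · exact (j2 Φ v).trans (by rw [Units.smul_def, Units.val_pow_eq_pow_val, hΦ]; rfl)
  · exact (j2 σ v).trans (by rw [hσ, one_pow, one_smul]; rfl)

end Coh

end Pool.Agent.MP_855f4c_ag.Gr
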